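import Pool.Agent.X254.HC.Comb

set_option autoImplicit false

/-! Centrality through the relative trace. -/

namespace Pool.Agent.X254.HC

open Finset

section Alg

variable {K : Type*} [Field K] {H : Type*} [Ring H] [Algebra K H]

/-- the relations used -/
structure Dat (n N : ℕ) (q : K) (t : ℕ → H) (A e : H) (m : ℕ → ℕ) : Prop where
  br : Braid n t
  qd : ∀ i, i + 1 < n → t i * t i = 1 + (q - q⁻¹) • t i
  Al : ∀ i, i < N → t i * A = (-q⁻¹) • A
  Ar : ∀ i, i < N → A * t i = (-q⁻¹) • A
  Ac : ∀ i, N + 1 ≤ i → i + 1 < n → t i * A = A * t i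
  el : ∀ i, i + 1 < n → (∀ k ≤ N, i + 1 ≠ m k) → t i * e = q • e
  er : ∀ i, i + 1 < n → (∀ k ≤ N, i + 1 ≠ m k) → e * t i = q • e
  m0 : m 0 = 0
  mono : ∀ k, k < N → m k < m (k + 1)
  mn : m N < n

variable {n N : ℕ} {q : K} {t : ℕ → H} {A e : H} {m : ℕ → ℕ}

lemma Dat.op (d : Dat n N q t A e m) :
    Dat n N q (fun i => MulOpposite.op (t i)) (MulOpposite.op A) (MulOpposite.op e) m where
  br := braid_op d.br
  qd i hi := by
    apply MulOpposite.unop_injective
    simp only [MulOpposite.unop_mul, MulOpposite.unop_op, MulOpposite.unop_add,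
      MulOpposite.unop_smul, MulOpposite.unop_one]
    exact d.qd i hi
  Al i hi := by
    apply MulOpposite.unop_injective
    simp only [MulOpposite.unop_mul, MulOpposite.unop_op, MulOpposite.unop_smul]
    exact d.Ar i hi
  Ar i hi := by
    apply MulOpposite.unop_injective
    simp only [MulOpposite.unop_mul, MulOpposite.unop_op, MulOpposite.unop_smul]
    exact d.Al i hi
  Ac i hi hi' := by
    apply MulOpposite.unop_injective
    simp only [MulOpposite.unop_mul, MulOpposite.unop_op]
    exact (d.Ac i hi hi').symm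
  el i hi hk := by
    apply MulOpposite.unop_injective
    simp only [MulOpposite.unop_mul, MulOpposite.unop_op, MulOpposite.unop_smul]
    exact d.er i hi hk
  er i hi hk := by
    apply MulOpposite.unop_injective
    simp only [MulOpposite.unop_mul, MulOpposite.unop_op, MulOpposite.unop_smul]
    exact d.el i hi hk
  m0 := d.m0
  mono := d.mono
  mn := d.mn

/-- `m` is strictly increasing on `0..N` -/
lemma Dat.lt (d : Dat n N q t A e m) {k l : ℕ} (h : k < l) (hl : l ≤ N) : m k < m l := by
  induction l with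
  | zero => omega
  | succ l ih =>
    have h1 := d.mono l (by omega)
    rcases Nat.lt_or_ge k l with h2 | h2
    · exact lt_trans (ih h2 (by omega)) h1
    · have : k = l := by omega
      subst this; exact h1

lemma Dat.comm (d : Dat n N q t A e m) {i : ℕ} (h : i ≠ N) (hi : i + 1 < n) :
    t i * A = A * t i := by
  rcases Nat.lt_or_ge i N with h1 | h1
  · rw [d.Al i h1, d.Ar i h1]
  · exact d.Ac i (by omega) hi

/-- the summand -/
noncomputable def xD (n : ℕ) (t : ℕ → H) (A : H) (D : Finset ℕ) : H := E t D n * A * Es t D n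

/-- the relative trace of `A` -/
noncomputable def Z (n N : ℕ) (t : ℕ → H) (A : H) : H :=
  ∑ D ∈ powersetCard (N + 1) (range n), xD n t A D

lemma xD_up (d : Dat n N q t A e m) {i : ℕ} {D : Finset ℕ} (h : i ∈ D) (h' : i + 1 ∉ D)
    (hi : i + 1 < n) : xD n t A (sD i D) = t i * xD n t A D * t i := by
  unfold xD
  rw [E_up d.br h h' (by omega) le_rfl, Es_up d.br h h' (by omega) le_rfl]
  simp only [mul_assoc]

lemma xD_same (d : Dat n N q t A e m) {i : ℕ} {D : Finset ℕ} (hD : D ⊆ range n)
    (hc : D.card = N + 1) (h : i ∈ D ↔ i + 1 ∈ D) (hi : i + 1 < n) :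
    t i * xD n t A D = xD n t A D * t i := by
  have hrn : rk D n = N + 1 := by rw [rk_card hD, hc]
  unfold xD
  by_cases hiD : i ∈ D
  · have h2 : rk D i + 2 ≤ rk D n := by
      have h3 := rk_mono D (show i + 2 ≤ n by omega)
      have h4 : rk D (i + 2) = rk D i + 2 := by
        rw [show i + 2 = i + 1 + 1 from rfl, rk_succ, rk_succ, if_pos hiD, if_pos (h.1 hiD)]
      omega
    have h5 := rk_le D i
    rw [mul_assoc _ (Es t D n), Es_in d.br hiD (h.1 hiD) (by omega) le_rfl, ← mul_assoc, ← mul_assoc,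
      E_in d.br hiD (h.1 hiD) (by omega) le_rfl, mul_assoc _ (t (rk D i)) A,
      d.comm (by omega) (by omega)]
    simp only [mul_assoc]
  · obtain ⟨c, h1, h2, h3⟩ := E_out d.br hiD (fun hh => hiD (h.2 hh)) (m := n) (by omega) le_rfl
    obtain ⟨c', h1', h2', h3'⟩ := Es_out d.br hiD (fun hh => hiD (h.2 hh)) (m := n) (by omega) le_rfl
    have hcc : c' = c := by omega
    subst hcc
    have h5 := rk_le D i
    rw [mul_assoc _ (Es t D n), h3', ← mul_assoc, ← mul_assoc, h3, mul_assoc _ (t (i + c')) A,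
      d.comm (by omega) (by omega)]
    simp only [mul_assoc]

theorem Z_comm (d : Dat n N q t A e m) {i : ℕ} (hi : i + 1 < n) :
    t i * Z n N t A = Z n N t A * t i := by
  unfold Z
  rw [mul_sum, sum_mul, ← sub_eq_zero, ← sum_sub_distrib]
  have up : ∀ D : Finset ℕ, i ∈ D → i + 1 ∉ D →
      (t i * xD n t A D - xD n t A D * t i) +
      (t i * xD n t A (sD i D) - xD n t A (sD i D) * t i) = 0 := by
    intro D h h'
    rw [xD_up d h h' hi]
    set x := xD n t A D
    have h1 : t i * (t i * x * t i) = x * t i + (q - q⁻¹) • (t i * x * t i) := by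
      rw [← mul_assoc, ← mul_assoc, d.qd i hi, add_mul, add_mul, one_mul, smul_mul_assoc,
        smul_mul_assoc]
    have h2 : (t i * x * t i) * t i = t i * x + (q - q⁻¹) • (t i * x * t i) := by
      rw [mul_assoc _ (t i) (t i), d.qd i hi, mul_add, mul_one, mul_smul_comm]
    rw [h1, h2]
    abel
  apply sum_involution (fun D _ => sD i D)
  · intro D hD
    rw [mem_powersetCard] at hD
    by_cases h : i ∈ D
    · by_cases h' : i + 1 ∈ D
      · rw [sD_eq_self ⟨fun _ => h', fun _ => h⟩,
          xD_same d hD.1 hD.2 ⟨fun _ => h', fun _ => h⟩ hi]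
        simp
      · exact up D h h'
    · by_cases h' : i + 1 ∈ D
      · have h3 := up (sD i D) ((mem_sD_left i D).2 h') (fun hh => h ((mem_sD_right i D).1 hh))
        rw [sD_sD] at h3
        rw [add_comm]; exact h3
      · rw [sD_eq_self ⟨fun hh => absurd hh h, fun hh => absurd hh h'⟩,
          xD_same d hD.1 hD.2 ⟨fun hh => absurd hh h, fun hh => absurd hh h'⟩ hi]
        simp
  · intro D hD hne heq
    rw [mem_powersetCard] at hD
    apply hne
    have : i ∈ D ↔ i + 1 ∈ D := by
      rw [← mem_sD_left i D, heq]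
    rw [xD_same d hD.1 hD.2 this hi, sub_self]
  · intro D hD
    rw [mem_powersetCard] at hD ⊢
    exact ⟨sD_sub hi hD.1, by rw [card_sD]; exact hD.2⟩
  · intro D hD
    exact sD_sD i D

/-- two elements of `D` in the same block -/
def Bad (m : ℕ → ℕ) (N : ℕ) (D : Finset ℕ) : Prop :=
  ∃ a b, a ∈ D ∧ b ∈ D ∧ a < b ∧ ∀ k ≤ N, ¬ (a < m k ∧ m k ≤ b)

lemma bad_zero (d : Dat n N q t A e m) (hq : q + q⁻¹ ≠ 0) (b : ℕ) :
    ∀ (a : ℕ) (D : Finset ℕ), D ⊆ range n → D.card = N + 1 → a ∈ D → b ∈ D → a < b →
    (∀ k ≤ N, ¬ (a < m k ∧ m k ≤ b)) → e * E t D n * A = 0 := by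
  induction b with
  | zero => intro a D _ _ _ _ h; omega
  | succ b ih =>
    intro a D hD hc ha hb hab hk
    have hbn : b + 1 < n := mem_range.1 (hD hb)
    have hek : ∀ k ≤ N, b + 1 ≠ m k := by
      intro k hkN h1
      exact hk k hkN ⟨by omega, by omega⟩
    by_cases hb' : b ∈ D
    · have h2 : rk D b + 2 ≤ rk D n := by
        have h3 := rk_mono D (show b + 2 ≤ n by omega)
        have h4 : rk D (b + 2) = rk D b + 2 := by
          rw [show b + 2 = b + 1 + 1 from rfl, rk_succ, rk_succ, if_pos hb', if_pos hb]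
        omega
      rw [rk_card hD, hc] at h2
      have h3 : e * t b * E t D n * A = q • (e * E t D n * A) := by
        rw [d.er b hbn hek, smul_mul_assoc, smul_mul_assoc]
      have h4 : e * t b * E t D n * A = (-q⁻¹) • (e * E t D n * A) := by
        rw [mul_assoc e (t b), E_in d.br hb' hb (by omega) le_rfl, mul_assoc, mul_assoc,
          d.Al _ (by omega), mul_smul_comm, mul_smul_comm, mul_assoc]
      rw [h3, ← sub_eq_zero, ← sub_smul, sub_neg_eq_add] at h4
      exact (smul_eq_zero.1 h4).resolve_left hq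
    · have hab' : a < b := by
        rcases Nat.lt_or_ge a b with h1 | h1
        · exact h1
        · have : a = b := by omega
          subst this; exact absurd ha hb'
      have h1 : b ∈ sD b D := (mem_sD_left b D).2 hb
      have h2 : b + 1 ∉ sD b D := fun hh => hb' ((mem_sD_right b D).1 hh)
      have h3 : a ∈ sD b D := (mem_sD_ne b D (by omega) (by omega)).2 ha
      have h4 := ih a (sD b D) (sD_sub hbn hD) (by rw [card_sD]; exact hc) h3 h1 hab'
        (fun k hkN h5 => hk k hkN ⟨h5.1, by omega⟩)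
      have h5 := E_up d.br h1 h2 (m := n) (by omega) le_rfl
      rw [sD_sD] at h5
      rw [h5, ← mul_assoc, d.er b hbn hek, smul_mul_assoc, smul_mul_assoc, h4, smul_zero]

lemma bad_zero' (d : Dat n N q t A e m) (hq : q + q⁻¹ ≠ 0) {D : Finset ℕ} (hD : D ⊆ range n)
    (hc : D.card = N + 1) (hb : Bad m N D) : e * E t D n * A = 0 := by
  obtain ⟨a, b, h1, h2, h3, h4⟩ := hb
  exact bad_zero d hq b a D hD hc h1 h2 h3 h4

lemma bad_zero_op (d : Dat n N q t A e m) (hq : q + q⁻¹ ≠ 0) {D : Finset ℕ} (hD : D ⊆ range n)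
    (hc : D.card = N + 1) (hb : Bad m N D) : A * (Es t D n * e) = 0 := by
  have := congrArg MulOpposite.unop (bad_zero' d.op hq hD hc hb)
  simpa [Es] using this

/-- first elements of the blocks -/
def D0 (m : ℕ → ℕ) (N : ℕ) : Finset ℕ := (range (N + 1)).image m

lemma card_D0 (d : Dat n N q t A e m) : (D0 m N).card = N + 1 := by
  unfold D0
  rw [card_image_of_injOn, card_range]
  intro k hk l hl h
  simp only [coe_range, Set.mem_Iio] at hk hl
  rcases lt_trichotomy k l with h1 | h1 | h1
  · have := d.lt h1 (by omega); omega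
  · exact h1
  · have := d.lt h1 (by omega); omega

lemma D0_sub (d : Dat n N q t A e m) : D0 m N ⊆ range n := by
  intro x hx
  unfold D0 at hx
  rw [mem_image] at hx
  obtain ⟨k, hk, rfl⟩ := hx
  rw [mem_range] at hk ⊢
  rcases Nat.lt_or_ge k N with h1 | h1
  · exact lt_trans (d.lt h1 le_rfl) d.mn
  · have : k = N := by omega
    subst this; exact d.mn

lemma good (d : Dat n N q t A e m) (s : ℕ) : ∀ D : Finset ℕ, D ⊆ range n → D.card = N + 1 →
    ∑ x ∈ D, x = s → ¬ Bad m N D →
    ∑ x ∈ D0 m N, x ≤ s ∧ e * E t D n = q ^ (s - ∑ x ∈ D0 m N, x) • (e * E t (D0 m N) n) := by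
  induction s with
  | zero =>
    intro D hD hc hs hb
    have hN : N = 0 := by
      by_contra hN
      have : D ⊆ {0} := by
        intro x hx
        have := single_le_sum (f := fun x => x) (fun _ _ => Nat.zero_le _) hx
        rw [mem_singleton]; omega
      have := card_le_card this
      rw [card_singleton] at this
      omega
    have h0 : D = D0 m N := by
      have e1 : D ⊆ {0} := by
        intro x hx
        have := single_le_sum (f := fun x => x) (fun _ _ => Nat.zero_le _) hx
        rw [mem_singleton]; omega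
      have e2 : D = {0} := eq_of_subset_of_card_le e1 (by rw [card_singleton, hc]; omega)
      rw [e2]
      unfold D0
      subst hN
      simp [d.m0]
    subst h0
    rw [hs]
    simp
  | succ s ih =>
    intro D hD hc hs hb
    by_cases hsub : D ⊆ D0 m N
    · have h0 : D = D0 m N := eq_of_subset_of_card_le hsub (by rw [card_D0 d, hc])
      subst h0
      rw [hs]
      simp
    · obtain ⟨p, hp, hp0⟩ := not_subset.1 hsub
      have hpne : p ≠ 0 := by
        rintro rfl
        apply hp0
        unfold D0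
        rw [mem_image]
        exact ⟨0, mem_range.2 (by omega), d.m0⟩
      obtain ⟨p', rfl⟩ := Nat.exists_eq_succ_of_ne_zero hpne
      rw [Nat.succ_eq_add_one] at hp hp0
      have hpk : ∀ k ≤ N, p' + 1 ≠ m k := by
        intro k hk h1
        apply hp0
        unfold D0
        rw [mem_image]
        exact ⟨k, mem_range.2 (by omega), h1.symm⟩
      have hpn : p' + 1 < n := mem_range.1 (hD hp)
      have hp'D : p' ∉ D := by
        intro h1
        apply hb
        refine ⟨p', p' + 1, h1, hp, by omega, fun k hk h2 => hpk k hk (by omega)⟩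
      have h1 : p' ∈ sD p' D := (mem_sD_left p' D).2 hp
      have h2 : p' + 1 ∉ sD p' D := fun hh => hp'D ((mem_sD_right p' D).1 hh)
      have h5 := E_up d.br h1 h2 (m := n) (by omega) le_rfl
      rw [sD_sD] at h5
      have h6 := sum_sD h1 h2
      rw [sD_sD, hs] at h6
      have hbad : ¬ Bad m N (sD p' D) := by
        rintro ⟨a, b, ha, hb1, hab, hk⟩
        apply hb
        have ha1 : a ≠ p' + 1 := by rintro rfl; exact h2 ha
        have hb2 : b ≠ p' + 1 := by rintro rfl; exact h2 hb1
        by_cases ha2 : a = p'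
        · subst ha2
          refine ⟨a + 1, b, hp, (mem_sD_ne a D (by omega) hb2).1 hb1, by omega, ?_⟩
          intro k hkN h7
          exact hk k hkN ⟨by omega, h7.2⟩
        · have haD : a ∈ D := (mem_sD_ne p' D ha2 ha1).1 ha
          by_cases hb3 : b = p'
          · subst hb3
            refine ⟨a, b + 1, haD, hp, by omega, ?_⟩
            intro k hkN h7
            by_cases h8 : m k = b + 1
            · exact hpk k hkN h8.symm
            · exact hk k hkN ⟨h7.1, by omega⟩
          · exact ⟨a, b, haD, (mem_sD_ne p' D hb3 hb2).1 hb1, hab, hk⟩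
      obtain ⟨h7, h8⟩ := ih (sD p' D) (sD_sub hpn hD) (by rw [card_sD]; exact hc) (by omega) hbad
      refine ⟨by omega, ?_⟩
      rw [h5, ← mul_assoc, d.er p' hpn hpk, smul_mul_assoc, h8, smul_smul, ← pow_succ',
        show s + 1 - ∑ x ∈ D0 m N, x = s - ∑ x ∈ D0 m N, x + 1 by omega]

lemma good_op (d : Dat n N q t A e m) {D : Finset ℕ} (hD : D ⊆ range n) (hc : D.card = N + 1)
    (hb : ¬ Bad m N D) :
    Es t D n * e = q ^ (∑ x ∈ D, x - ∑ x ∈ D0 m N, x) • (Es t (D0 m N) n * e) := by
  have := congrArg MulOpposite.unop (good d.op _ D hD hc rfl hb).2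
  simpa [Es] using this

/-- left span of the `A * Es D` with small `D` -/
def V (n N : ℕ) (t : ℕ → H) (A : H) (r : ℕ) : Submodule H H :=
  Submodule.span H {x | ∃ D : Finset ℕ, D ⊆ range n ∧ D.card = N + 1 ∧ ∑ x ∈ D, x < r ∧
    x = A * Es t D n}

lemma V_mono {r r' : ℕ} (h : r ≤ r') : V n N t A r ≤ V n N t A r' := by
  apply Submodule.span_mono
  rintro x ⟨D, h1, h2, h3, h4⟩
  exact ⟨D, h1, h2, by omega, h4⟩

lemma V_mem {r : ℕ} {D : Finset ℕ} (h1 : D ⊆ range n) (h2 : D.card = N + 1)
    (h3 : ∑ x ∈ D, x < r) : A * Es t D n ∈ V n N t A r :=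
  Submodule.subset_span ⟨D, h1, h2, h3, rfl⟩

lemma V_smulK {r : ℕ} (c : K) {x : H} (h : x ∈ V n N t A r) : c • x ∈ V n N t A r := by
  have : c • x = (algebraMap K H c) • x := by rw [Algebra.smul_def]; rfl
  rw [this]
  exact Submodule.smul_mem _ _ h

lemma V_mul (d : Dat n N q t A e m) {i : ℕ} (hi : i + 1 < n) {r : ℕ} {x : H}
    (h : x ∈ V n N t A r) : x * t i ∈ V n N t A (r + 1) := by
  unfold V at h
  induction h using Submodule.span_induction with
  | mem x hx =>
    obtain ⟨D, h1, h2, h3, rfl⟩ := hx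
    by_cases hiD : i ∈ D
    · by_cases hiD' : i + 1 ∈ D
      · have h4 : rk D i + 2 ≤ rk D n := by
          have h3 := rk_mono D (show i + 2 ≤ n by omega)
          have h4 : rk D (i + 2) = rk D i + 2 := by
            rw [show i + 2 = i + 1 + 1 from rfl, rk_succ, rk_succ, if_pos hiD, if_pos hiD']
          omega
        rw [rk_card h1, h2] at h4
        rw [mul_assoc, Es_in d.br hiD hiD' (by omega) le_rfl, ← mul_assoc, d.Ar _ (by omega),
          smul_mul_assoc]
        exact V_smulK _ (V_mem h1 h2 (by omega))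
      · rw [mul_assoc, ← Es_up d.br hiD hiD' (by omega) le_rfl]
        exact V_mem (sD_sub hi h1) (by rw [card_sD]; exact h2) (by rw [sum_sD hiD hiD']; omega)
    · by_cases hiD' : i + 1 ∈ D
      · have h4 : i ∈ sD i D := (mem_sD_left i D).2 hiD'
        have h5 : i + 1 ∉ sD i D := fun hh => hiD ((mem_sD_right i D).1 hh)
        have h6 := Es_up d.br h4 h5 (m := n) (by omega) le_rfl
        rw [sD_sD] at h6
        have h7 := sum_sD h4 h5
        rw [sD_sD] at h7
        have h8 : A * Es t D n * t i = A * Es t (sD i D) n + (q - q⁻¹) • (A * Es t D n) := by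
          rw [h6, mul_assoc, mul_assoc, d.qd i hi, mul_add, mul_add, mul_one, mul_smul_comm,
            mul_smul_comm]
        rw [h8]
        exact add_mem (V_mem (sD_sub hi h1) (by rw [card_sD]; exact h2) (by omega))
          (V_smulK _ (V_mem h1 h2 (by omega)))
      · obtain ⟨c, h4, h5, h6⟩ := Es_out d.br hiD hiD' (m := n) (by omega) le_rfl
        have h7 := rk_le D i
        rw [rk_card h1, h2] at h4
        rw [mul_assoc, h6, ← mul_assoc, ← d.comm (by omega) (by omega), mul_assoc]
        exact Submodule.smul_mem _ _ (V_mem h1 h2 (by omega))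
  | zero => rw [zero_mul]; exact zero_mem _
  | add x y _ _ hx hy => rw [add_mul]; exact add_mem hx hy
  | smul c x _ hx => rw [smul_mul_assoc]; exact Submodule.smul_mem _ _ hx

lemma V_zero (d : Dat n N q t A e m) (hq : q + q⁻¹ ≠ 0) {x : H}
    (h : x ∈ V n N t A (∑ x ∈ D0 m N, x)) : x * e = 0 := by
  unfold V at h
  induction h using Submodule.span_induction with
  | mem x hx =>
    obtain ⟨D, h1, h2, h3, rfl⟩ := hx
    rw [mul_assoc]
    apply bad_zero_op d hq h1 h2
    by_contra hb
    have := (good d _ D h1 h2 rfl hb).1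
    omega
  | zero => rw [zero_mul]
  | add x y _ _ hx hy => rw [add_mul, hx, hy, add_zero]
  | smul c x _ hx => rw [smul_mul_assoc, hx, smul_zero]

lemma exists_down {D : Finset ℕ} (hD : D ≠ range D.card) : ∃ i, i ∉ D ∧ i + 1 ∈ D := by
  by_contra hcon
  push Not at hcon
  have h1 : ∀ x, x ∈ D → ∀ y, y ≤ x → y ∈ D := by
    intro x
    induction x with
    | zero => intro hx y hy; rwa [Nat.le_zero.1 hy]
    | succ x ih =>
      intro hx y hy
      rcases Nat.lt_or_ge y (x + 1) with h | h
      · refine ih ?_ y (by omega)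
        by_contra hxD
        exact hcon x hxD hx
      · have : y = x + 1 := by omega
        rwa [this]
  apply hD
  apply eq_of_subset_of_card_le
  · intro x hx
    rw [mem_range]
    have h2 : range (x + 1) ⊆ D := fun y hy => h1 x hx y (by rw [mem_range] at hy; omega)
    have := card_le_card h2
    rw [card_range] at this
    omega
  · rw [card_range]

variable {tu : ℕ → Hˣ}

lemma braid_units (hb : Braid n t) (hu : ∀ i, (tu i : H) = t i) : Braid n tu where
  br i hi := by
    apply Units.ext
    simp only [Units.val_mul, hu]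
    exact hb.br i hi
  cm i j h hj := by
    apply Units.ext
    simp only [Units.val_mul, hu]
    exact hb.cm i j h hj

lemma coe_E (hu : ∀ i, (tu i : H) = t i) (D : Finset ℕ) (k : ℕ) :
    ((E tu D k : Hˣ) : H) = E t D k := by
  have := E_map (Units.coeHom H) tu D k
  simp only [Units.coeHom_apply, hu] at this
  exact this

lemma inv_eq (d : Dat n N q t A e m) (hu : ∀ i, (tu i : H) = t i) {i : ℕ} (hi : i + 1 < n) :
    (((tu i)⁻¹ : Hˣ) : H) = t i - (q - q⁻¹) • 1 := by
  have h1 : (t i) * (t i - (q - q⁻¹) • 1) = 1 := by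
    rw [mul_sub, d.qd i hi, mul_smul_comm, mul_one]; abel
  rw [← hu i] at h1
  rw [Units.inv_eq_of_mul_eq_one_right h1, hu]

lemma inv_mem (d : Dat n N q t A e m) (hu : ∀ i, (tu i : H) = t i) (s : ℕ) :
    ∀ D : Finset ℕ, D ⊆ range n → D.card = N + 1 → ∑ x ∈ D, x = s →
    A * (((E tu D n)⁻¹ : Hˣ) : H) - A * Es t D n ∈ V n N t A s := by
  induction s with
  | zero =>
    intro D hD hc hs
    have h0 : D = range (N + 1) := by
      by_contra hne
      rw [← hc] at hne
      obtain ⟨i, h1, h2⟩ := exists_down hne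
      have := single_le_sum (f := fun x => x) (fun _ _ => Nat.zero_le _) h2
      omega
    rw [h0, E_range, Es_range]
    simp
  | succ s ih =>
    intro D hD hc hs
    by_cases h0 : D = range (N + 1)
    · rw [h0, E_range, Es_range]
      simp
    · rw [← hc] at h0
      obtain ⟨i, h1, h2⟩ := exists_down h0
      have hi : i + 1 < n := mem_range.1 (hD h2)
      have h4 : i ∈ sD i D := (mem_sD_left i D).2 h2
      have h5 : i + 1 ∉ sD i D := fun hh => h1 ((mem_sD_right i D).1 hh)
      have h6 := Es_up d.br h4 h5 (m := n) (by omega) le_rfl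
      rw [sD_sD] at h6
      have h7 := sum_sD h4 h5
      rw [sD_sD] at h7
      have h8 := E_up (braid_units d.br hu) h4 h5 (m := n) (by omega) le_rfl
      rw [sD_sD] at h8
      have h9 := ih (sD i D) (sD_sub hi hD) (by rw [card_sD]; exact hc) (by omega)
      rw [h8, h6, mul_inv_rev, Units.val_mul, inv_eq d hu hi]
      set F := (((E tu (sD i D) n)⁻¹ : Hˣ) : H)
      set G := Es t (sD i D) n
      have h10 : A * (F * (t i - (q - q⁻¹) • 1)) - A * (G * t i) =
          (A * F - A * G) * t i - (q - q⁻¹) • (A * F - A * G) - (q - q⁻¹) • (A * G) := by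
        rw [mul_sub F, mul_smul_comm, mul_one, mul_sub, sub_mul, smul_sub, mul_smul_comm, mul_assoc,
          mul_assoc]
        abel
      rw [h10]
      exact sub_mem (sub_mem (V_mul d hi h9) (V_smulK _ (V_mono (by omega) h9)))
        (V_smulK _ (V_mem (sD_sub hi hD) (by rw [card_sD]; exact hc) (by omega)))

theorem inv_e (d : Dat n N q t A e m) (hq : q + q⁻¹ ≠ 0) (hu : ∀ i, (tu i : H) = t i) :
    A * (((E tu (D0 m N) n)⁻¹ : Hˣ) : H) * e = A * Es t (D0 m N) n * e := by
  have h1 := V_zero d hq (inv_mem d hu _ (D0 m N) (D0_sub d) (card_D0 d) rfl)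
  rw [sub_mul, sub_eq_zero] at h1
  exact h1

open Classical in
theorem eZe (d : Dat n N q t A e m) (hq : q + q⁻¹ ≠ 0) (hu : ∀ i, (tu i : H) = t i) :
    e * Z n N t A * e = (∑ D ∈ (powersetCard (N + 1) (range n)).filter (fun D => ¬ Bad m N D),
      q ^ (2 * (∑ x ∈ D, x - ∑ x ∈ D0 m N, x))) •
      (e * (E tu (D0 m N) n : Hˣ) * A * (((E tu (D0 m N) n)⁻¹ : Hˣ) : H) * e) := by
  rw [mul_assoc (e * (E tu (D0 m N) n : Hˣ)), mul_assoc (e * (E tu (D0 m N) n : Hˣ)), inv_e d hq hu,
    coe_E hu, sum_smul]
  unfold Z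
  rw [mul_sum, sum_mul, ← sum_filter_add_sum_filter_not (powersetCard (N + 1) (range n))
    (fun D => ¬ Bad m N D)]
  rw [sum_eq_zero (s := {x ∈ powersetCard (N + 1) (range n) | ¬ ¬ Bad m N x}), add_zero]
  · apply sum_congr rfl
    intro D hD
    rw [mem_filter, mem_powersetCard] at hD
    unfold xD
    have h1 := (good d _ D hD.1.1 hD.1.2 rfl hD.2).2
    have h2 := good_op d hD.1.1 hD.1.2 hD.2
    rw [← mul_assoc, ← mul_assoc, h1, mul_assoc _ (Es t D n) e, h2, smul_mul_assoc, smul_mul_assoc,
      mul_smul_comm, smul_smul, ← pow_add, ← two_mul]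
    congr 1
    simp only [mul_assoc]
  · intro D hD
    rw [mem_filter, mem_powersetCard, not_not] at hD
    unfold xD
    rw [← mul_assoc, ← mul_assoc, bad_zero' d hq hD.1.1 hD.1.2 hD.2, zero_mul, zero_mul]

end Alg

end Pool.Agent.X254.HC
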