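import Mathlib

set_option autoImplicit false

/-! Coset representatives `E t D` of `S_n / (S_{N+1} x S_{n-N-1})` in terms of generators satisfying
the braid relations. -/

namespace Pool.Agent.X254.HC

open Finset

section Mon

variable {M : Type*} [Monoid M]

/-- braid relations for `t 0, ..., t (n-2)` -/
structure Braid (n : ℕ) (t : ℕ → M) : Prop where
  br : ∀ i, i + 2 < n → t i * t (i + 1) * t i = t (i + 1) * t i * t (i + 1)
  cm : ∀ i j, i + 2 ≤ j → j + 1 < n → t i * t j = t j * t i

/-- `t (a-1) ... t k` (one if `a ≤ k`) -/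
def C (t : ℕ → M) (k : ℕ) : ℕ → M
  | 0 => 1
  | (a + 1) => if k ≤ a then t a * C t k a else 1

lemma C_le (t : ℕ → M) {k a : ℕ} (h : a ≤ k) : C t k a = 1 := by
  cases a with
  | zero => rfl
  | succ a => simp only [C]; rw [if_neg (by omega)]

lemma C_succ (t : ℕ → M) {k a : ℕ} (h : k ≤ a) : C t k (a + 1) = t a * C t k a := by
  simp only [C]; rw [if_pos h]

lemma C_last (t : ℕ → M) {k a : ℕ} (h : k < a) : C t k a = C t (k + 1) a * t k := by
  induction a with
  | zero => omega
  | succ a ih =>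
    rcases Nat.lt_or_ge k a with h1 | h1
    · rw [C_succ t (by omega), C_succ t (by omega), ih h1, mul_assoc]
    · have : a = k := by omega
      subst this
      rw [C_succ t le_rfl, C_le t le_rfl, C_le t le_rfl, mul_one, one_mul]

variable {n : ℕ} {t : ℕ → M}

lemma C_comm_hi (ht : Braid n t) (k : ℕ) {a j : ℕ} (h : a + 1 ≤ j) (hj : j + 1 < n) :
    t j * C t k a = C t k a * t j := by
  induction a with
  | zero => simp [C]
  | succ a ih =>
    rcases Nat.lt_or_ge a k with h1 | h1
    · rw [C_le t (by omega)]; simp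
    · rw [C_succ t h1, ← mul_assoc, ← ht.cm a j (by omega) hj, mul_assoc, ih (by omega), mul_assoc]

lemma C_comm_lo (ht : Braid n t) {k a j : ℕ} (h : j + 2 ≤ k) (ha : a < n) :
    t j * C t k a = C t k a * t j := by
  induction a with
  | zero => simp [C]
  | succ a ih =>
    rcases Nat.lt_or_ge a k with h1 | h1
    · rw [C_le t (by omega)]; simp
    · rw [C_succ t h1, ← mul_assoc, ht.cm j a (by omega) ha, mul_assoc, ih (by omega), mul_assoc]

lemma C_shift (ht : Braid n t) {k a c : ℕ} (h : k ≤ c) (hc : c + 2 ≤ a) (ha : a < n) :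
    C t k a * t (c + 1) = t c * C t k a := by
  induction a with
  | zero => omega
  | succ b ih =>
    rcases Nat.lt_or_ge c (b - 1) with h1 | h1
    · rw [C_succ t (by omega), mul_assoc, ih (by omega) (by omega), ← mul_assoc,
        ← ht.cm c b (by omega) ha, mul_assoc]
    · have hb : b = c + 1 := by omega
      subst hb
      rw [C_succ t (by omega), C_succ t h, mul_assoc, mul_assoc,
        ← C_comm_hi ht k (le_refl (c + 1)) ha, ← mul_assoc, ← mul_assoc, ← ht.br c (by omega)]
      simp only [mul_assoc]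

lemma C_double_aux (ht : Braid n t) {r i j : ℕ} (h : r ≤ j) (hj : j ≤ i) (hi : i + 1 < n) :
    C t r (i + 1) * C t (r + 1) (j + 1) = C t r j * C t r (i + 1) := by
  induction j with
  | zero =>
    have : r = 0 := by omega
    subst this
    rw [C_le t (k := 0 + 1) le_rfl, C_le t (k := 0) (a := 0) le_rfl]; simp
  | succ j ih =>
    rcases Nat.lt_or_ge j r with h1 | h1
    · rw [C_le t (k := r + 1) (by omega), C_le t (k := r) (a := j + 1) (by omega)]; simp
    · rw [C_succ t (k := r + 1) (by omega), ← mul_assoc, C_shift ht h1 (by omega) hi, mul_assoc,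
        ih h1 (by omega), C_succ t (k := r) (a := j) h1, mul_assoc]

lemma C_double (ht : Braid n t) {r i : ℕ} (h : r ≤ i) (hi : i + 1 < n) :
    t i * (C t r i * C t (r + 1) (i + 1)) = C t r i * C t (r + 1) (i + 1) * t r := by
  rw [← mul_assoc, ← C_succ t h, C_double_aux ht h le_rfl hi, C_last t (k := r) (a := i + 1)
    (by omega), mul_assoc]

/-- number of elements of `D` less than `m` -/
def rk (D : Finset ℕ) (m : ℕ) : ℕ := Nat.count (· ∈ D) m

lemma rk_succ (D : Finset ℕ) (m : ℕ) : rk D (m + 1) = rk D m + if m ∈ D then 1 else 0 :=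
  Nat.count_succ _ _

lemma rk_zero (D : Finset ℕ) : rk D 0 = 0 := Nat.count_zero _

lemma rk_le (D : Finset ℕ) (m : ℕ) : rk D m ≤ m := Nat.count_le _

lemma rk_mono (D : Finset ℕ) {m m' : ℕ} (h : m ≤ m') : rk D m ≤ rk D m' :=
  Nat.count_monotone _ h

lemma rk_card {D : Finset ℕ} {n : ℕ} (h : D ⊆ range n) : rk D n = D.card := by
  unfold rk
  rw [Nat.count_eq_card_filter_range]
  congr 1
  ext x
  simp only [mem_filter]
  exact ⟨fun h => h.2, fun hx => ⟨h hx, hx⟩⟩

/-- the product over `m ∈ D` of `t (m-1) ... t (rk D m)` -/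
def E (t : ℕ → M) (D : Finset ℕ) : ℕ → M
  | 0 => 1
  | (m + 1) => E t D m * (if m ∈ D then C t (rk D m) m else 1)

lemma E_succ_mem (t : ℕ → M) {D : Finset ℕ} {m : ℕ} (h : m ∈ D) :
    E t D (m + 1) = E t D m * C t (rk D m) m := by
  simp only [E]; rw [if_pos h]

lemma E_succ_not (t : ℕ → M) {D : Finset ℕ} {m : ℕ} (h : m ∉ D) :
    E t D (m + 1) = E t D m := by
  simp only [E]; rw [if_neg h, mul_one]

lemma E_comm_hi (ht : Braid n t) (D : Finset ℕ) {m j : ℕ} (h : m ≤ j) (hj : j + 1 < n) :
    t j * E t D m = E t D m * t j := by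
  induction m with
  | zero => simp [E]
  | succ m ih =>
    by_cases hm : m ∈ D
    · rw [E_succ_mem t hm, ← mul_assoc, ih (by omega), mul_assoc, C_comm_hi ht _ h hj, mul_assoc]
    · rw [E_succ_not t hm, ih (by omega)]

/-- the set with `i` and `i+1` exchanged -/
def sD (i : ℕ) (D : Finset ℕ) : Finset ℕ := D.map (Equiv.swap i (i + 1)).toEmbedding

lemma mem_sD (i : ℕ) (D : Finset ℕ) (x : ℕ) : x ∈ sD i D ↔ Equiv.swap i (i + 1) x ∈ D := by
  unfold sD
  rw [Finset.mem_map_equiv]
  simp

lemma mem_sD_left (i : ℕ) (D : Finset ℕ) : i ∈ sD i D ↔ i + 1 ∈ D := by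
  rw [mem_sD, Equiv.swap_apply_left]

lemma mem_sD_right (i : ℕ) (D : Finset ℕ) : i + 1 ∈ sD i D ↔ i ∈ D := by
  rw [mem_sD, Equiv.swap_apply_right]

lemma mem_sD_ne (i : ℕ) (D : Finset ℕ) {x : ℕ} (h : x ≠ i) (h' : x ≠ i + 1) :
    x ∈ sD i D ↔ x ∈ D := by
  rw [mem_sD, Equiv.swap_apply_of_ne_of_ne h h']

lemma sD_sD (i : ℕ) (D : Finset ℕ) : sD i (sD i D) = D := by
  ext x
  rw [mem_sD, mem_sD, Equiv.swap_apply_self]

lemma card_sD (i : ℕ) (D : Finset ℕ) : (sD i D).card = D.card := by
  unfold sD; rw [card_map]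

lemma sD_sub {i n : ℕ} {D : Finset ℕ} (hi : i + 1 < n) (h : D ⊆ range n) : sD i D ⊆ range n := by
  intro x hx
  rw [mem_sD] at hx
  have := h hx
  rw [mem_range] at this ⊢
  by_cases h1 : x = i
  · omega
  · by_cases h2 : x = i + 1
    · omega
    · rwa [Equiv.swap_apply_of_ne_of_ne h1 h2] at this

lemma sD_eq_self {i : ℕ} {D : Finset ℕ} (h : i ∈ D ↔ i + 1 ∈ D) : sD i D = D := by
  ext x
  by_cases h1 : x = i
  · subst h1; rw [mem_sD_left]; exact h.symm
  · by_cases h2 : x = i + 1
    · subst h2; rw [mem_sD_right]; exact h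
    · exact mem_sD_ne i D h1 h2

lemma sum_sD {i : ℕ} {D : Finset ℕ} (h : i ∈ D) (h' : i + 1 ∉ D) :
    ∑ x ∈ sD i D, x = ∑ x ∈ D, x + 1 := by
  have e1 : sD i D = insert (i + 1) (D.erase i) := by
    ext x
    rw [mem_insert, mem_erase]
    by_cases h1 : x = i
    · subst h1; rw [mem_sD_left]
      constructor
      · intro h2; exact absurd h2 h'
      · rintro (h2 | h2)
        · omega
        · exact absurd rfl h2.1
    · by_cases h2 : x = i + 1
      · subst h2; rw [mem_sD_right]
        exact ⟨fun _ => Or.inl rfl, fun _ => h⟩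
      · rw [mem_sD_ne i D h1 h2]
        constructor
        · intro h3; exact Or.inr ⟨h1, h3⟩
        · rintro (h3 | h3)
          · exact absurd h3 h2
          · exact h3.2
  rw [e1, sum_insert (by simp [h'])]
  have := Finset.add_sum_erase D (fun x => x) h
  omega

lemma rk_sD_le {i : ℕ} {D : Finset ℕ} {m : ℕ} (h : m ≤ i) : rk (sD i D) m = rk D m := by
  induction m with
  | zero => rw [rk_zero, rk_zero]
  | succ m ih =>
    rw [rk_succ, rk_succ, ih (by omega)]
    congr 1
    rw [if_congr (mem_sD_ne i D (by omega) (by omega)) rfl rfl]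

lemma rk_sD_ge {i : ℕ} {D : Finset ℕ} {m : ℕ} (h : i + 2 ≤ m) : rk (sD i D) m = rk D m := by
  induction m with
  | zero => omega
  | succ m ih =>
    rcases Nat.lt_or_ge m (i + 2) with h1 | h1
    · have : m = i + 1 := by omega
      subst this
      rw [rk_succ, rk_succ, rk_succ, rk_succ, rk_sD_le le_rfl,
        if_congr (mem_sD_left i D) rfl rfl, if_congr (mem_sD_right i D) rfl rfl]
      omega
    · rw [rk_succ, rk_succ, ih h1]
      congr 1
      rw [if_congr (mem_sD_ne i D (by omega) (by omega)) rfl rfl]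

lemma E_sD_le (t : ℕ → M) {i : ℕ} {D : Finset ℕ} {m : ℕ} (h : m ≤ i) :
    E t (sD i D) m = E t D m := by
  induction m with
  | zero => rfl
  | succ m ih =>
    simp only [E]
    rw [ih (by omega), rk_sD_le (by omega),
      if_congr (mem_sD_ne i D (by omega) (by omega)) rfl rfl]

/-- (R1) -/
lemma E_up (ht : Braid n t) {i : ℕ} {D : Finset ℕ} (h : i ∈ D) (h' : i + 1 ∉ D) {m : ℕ}
    (hm : i + 2 ≤ m) (hn : m ≤ n) : E t (sD i D) m = t i * E t D m := by
  induction m with
  | zero => omega
  | succ m ih =>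
    rcases Nat.lt_or_ge m (i + 2) with h1 | h1
    · have : m = i + 1 := by omega
      subst this
      rw [E_succ_mem t ((mem_sD_right i D).2 h), E_succ_not t (fun h2 => h' ((mem_sD_left i D).1 h2)),
        E_succ_not t h', E_succ_mem t h, E_sD_le t le_rfl, rk_succ, if_neg (fun h2 => h'
        ((mem_sD_left i D).1 h2)), add_zero, rk_sD_le le_rfl, C_succ t (rk_le _ _), ← mul_assoc,
        ← E_comm_hi ht D le_rfl (by omega), mul_assoc]
    · simp only [E]
      rw [ih h1 (by omega), rk_sD_ge h1, if_congr (mem_sD_ne i D (by omega) (by omega)) rfl rfl,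
        mul_assoc]

/-- (R2) -/
lemma E_in (ht : Braid n t) {i : ℕ} {D : Finset ℕ} (h : i ∈ D) (h' : i + 1 ∈ D) {m : ℕ}
    (hm : i + 2 ≤ m) (hn : m ≤ n) : t i * E t D m = E t D m * t (rk D i) := by
  induction m with
  | zero => omega
  | succ m ih =>
    rcases Nat.lt_or_ge m (i + 2) with h1 | h1
    · have : m = i + 1 := by omega
      subst this
      rw [E_succ_mem t h', E_succ_mem t h, rk_succ, if_pos h, mul_assoc, ← mul_assoc,
        E_comm_hi ht D le_rfl (by omega), mul_assoc, C_double ht (rk_le _ _) (by omega),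
        ← mul_assoc, ← mul_assoc]
    · by_cases hmD : m ∈ D
      · have h2 : rk D i + 2 ≤ rk D m := by
          have h3 := rk_mono D h1
          have h4 : rk D (i + 2) = rk D i + 2 := by
            rw [show i + 2 = i + 1 + 1 from rfl, rk_succ, rk_succ, if_pos h, if_pos h']
          omega
        rw [E_succ_mem t hmD, ← mul_assoc, ih h1 (by omega), mul_assoc,
          C_comm_lo ht h2 (by omega), mul_assoc]
      · rw [E_succ_not t hmD, ih h1 (by omega)]

/-- (R3) -/
lemma E_out (ht : Braid n t) {i : ℕ} {D : Finset ℕ} (h : i ∉ D) (h' : i + 1 ∉ D) {m : ℕ}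
    (hm : i + 2 ≤ m) (hn : m ≤ n) : ∃ d, rk D m = rk D i + d ∧ i + d + 2 ≤ m ∧
      t i * E t D m = E t D m * t (i + d) := by
  induction m with
  | zero => omega
  | succ m ih =>
    rcases Nat.lt_or_ge m (i + 2) with h1 | h1
    · have : m = i + 1 := by omega
      subst this
      refine ⟨0, ?_, by omega, ?_⟩
      · rw [rk_succ, rk_succ, if_neg h, if_neg h']
      · rw [E_succ_not t h', E_succ_not t h, add_zero, E_comm_hi ht D le_rfl (by omega)]
    · obtain ⟨d, hd, hd2, hd3⟩ := ih h1 (by omega)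
      by_cases hmD : m ∈ D
      · refine ⟨d + 1, ?_, by omega, ?_⟩
        · rw [rk_succ, if_pos hmD, hd]; omega
        · have h5 := rk_le D i
          rw [E_succ_mem t hmD, ← mul_assoc, hd3, mul_assoc, ← C_shift ht (c := i + d) (by omega)
            hd2 (by omega), mul_assoc, ← add_assoc]
      · refine ⟨d, ?_, by omega, ?_⟩
        · rw [rk_succ, if_neg hmD, hd]; omega
        · rw [E_succ_not t hmD, hd3]

lemma rk_range {k m : ℕ} (h : m ≤ k) : rk (range k) m = m := by
  induction m with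
  | zero => exact rk_zero _
  | succ m ih => rw [rk_succ, ih (by omega), if_pos (mem_range.2 (by omega))]

lemma E_range (t : ℕ → M) (k m : ℕ) : E t (range k) m = 1 := by
  induction m with
  | zero => rfl
  | succ m ih =>
    by_cases h : m < k
    · rw [E_succ_mem t (mem_range.2 h), ih, rk_range (by omega), C_le t le_rfl, mul_one]
    · rw [E_succ_not t (by rw [mem_range]; exact h), ih]

lemma E_map {M' : Type*} [Monoid M'] (f : M →* M') (t : ℕ → M) (D : Finset ℕ) (m : ℕ) :
    f (E t D m) = E (fun i => f (t i)) D m := by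
  have hC : ∀ k a, f (C t k a) = C (fun i => f (t i)) k a := by
    intro k a
    induction a with
    | zero => simp [C]
    | succ a ih =>
      simp only [C]
      split_ifs
      · rw [map_mul, ih]
      · rw [map_one]
  induction m with
  | zero => simp [E]
  | succ m ih =>
    simp only [E]
    rw [map_mul, ih]
    congr 1
    split_ifs
    · rw [hC]
    · rw [map_one]

/-- the reversed product -/
def Es (t : ℕ → M) (D : Finset ℕ) (m : ℕ) : M :=
  MulOpposite.unop (E (fun i => MulOpposite.op (t i)) D m)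

lemma braid_op (ht : Braid n t) : Braid n (fun i => MulOpposite.op (t i)) where
  br i hi := by
    apply MulOpposite.unop_injective
    simp only [MulOpposite.unop_mul, MulOpposite.unop_op]
    rw [← mul_assoc, ← mul_assoc]
    exact ht.br i hi
  cm i j h hj := by
    apply MulOpposite.unop_injective
    simp only [MulOpposite.unop_mul, MulOpposite.unop_op]
    exact (ht.cm i j h hj).symm

lemma Es_up (ht : Braid n t) {i : ℕ} {D : Finset ℕ} (h : i ∈ D) (h' : i + 1 ∉ D) {m : ℕ}
    (hm : i + 2 ≤ m) (hn : m ≤ n) : Es t (sD i D) m = Es t D m * t i := by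
  unfold Es
  rw [E_up (braid_op ht) h h' hm hn]
  simp

lemma Es_in (ht : Braid n t) {i : ℕ} {D : Finset ℕ} (h : i ∈ D) (h' : i + 1 ∈ D) {m : ℕ}
    (hm : i + 2 ≤ m) (hn : m ≤ n) : Es t D m * t i = t (rk D i) * Es t D m := by
  have := congrArg MulOpposite.unop (E_in (braid_op ht) h h' hm hn)
  simpa [Es] using this

lemma Es_out (ht : Braid n t) {i : ℕ} {D : Finset ℕ} (h : i ∉ D) (h' : i + 1 ∉ D) {m : ℕ}
    (hm : i + 2 ≤ m) (hn : m ≤ n) : ∃ d, rk D m = rk D i + d ∧ i + d + 2 ≤ m ∧
      Es t D m * t i = t (i + d) * Es t D m := by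
  obtain ⟨d, h1, h2, h3⟩ := E_out (braid_op ht) h h' hm hn
  refine ⟨d, h1, h2, ?_⟩
  have := congrArg MulOpposite.unop h3
  simpa [Es] using this

lemma Es_range (t : ℕ → M) (k m : ℕ) : Es t (range k) m = 1 := by
  unfold Es; rw [E_range]; simp

end Mon

end Pool.Agent.X254.HC
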