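import Pool.Agent.X254.HC.Perm

set_option autoImplicit false

/-! The Hecke algebra `H(S_n)` over `ℂ(q)`, and the elements of the problem. -/

namespace Pool.Agent.X254.HC

open Finset Equiv

/-- the field `ℂ(q)` -/
abbrev KK : Type := RatFunc ℂ

/-- the indeterminate -/
noncomputable def qq : KK := RatFunc.X

/-- the letter `i` in the free algebra; it stands for `T_{i+1}` -/
noncomputable def let' (n : ℕ) (i : Fin (n - 1)) : FreeAlgebra KK (Fin (n - 1)) :=
  FreeAlgebra.ι KK i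

/-- the scalar `c` in the free algebra -/
noncomputable def scal (n : ℕ) (c : KK) : FreeAlgebra KK (Fin (n - 1)) := algebraMap KK _ c

/-- defining relations of `H(S_n)`; the letter `i : Fin (n - 1)` is the generator `T_{i+1}` -/
inductive HRel (n : ℕ) : FreeAlgebra KK (Fin (n - 1)) → FreeAlgebra KK (Fin (n - 1)) → Prop
  | braid (i j : Fin (n - 1)) (h : (i : ℕ) + 1 = j) :
      HRel n (let' n i * let' n j * let' n i) (let' n j * let' n i * let' n j)
  | comm (i j : Fin (n - 1)) (h : (i : ℕ) + 1 < j) :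
      HRel n (let' n i * let' n j) (let' n j * let' n i)
  | quad (i : Fin (n - 1)) :
      HRel n ((let' n i - scal n qq) * (let' n i + scal n qq⁻¹)) 0

/-- the algebra `H(S_n)` -/
def Hecke (n : ℕ) : Type := RingQuot (HRel n)

set_option warn.classDefReducibility false in
/-- the ring structure of the quotient -/
noncomputable def ringH (n : ℕ) : Ring (Hecke n) := RingQuot.instRing (HRel n)

noncomputable instance instRingH (n : ℕ) : Ring (Hecke n) := ringH n

set_option warn.classDefReducibility false in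
/-- the algebra structure of the quotient -/
noncomputable def algebraH (n : ℕ) : Algebra KK (Hecke n) := RingQuot.instAlgebra (HRel n)

noncomputable instance instAlgebraH (n : ℕ) : Algebra KK (Hecke n) := algebraH n

/-- the quotient map from the free algebra -/
noncomputable def quo (n : ℕ) : FreeAlgebra KK (Fin (n - 1)) →ₐ[KK] Hecke n :=
  RingQuot.mkAlgHom KK (HRel n)

lemma quo_rel {n : ℕ} {x y : FreeAlgebra KK (Fin (n - 1))} (h : HRel n x y) :
    quo n x = quo n y := RingQuot.mkAlgHom_rel KK h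

lemma quo_surj (n : ℕ) : Function.Surjective (quo n) := RingQuot.mkAlgHom_surjective KK (HRel n)

/-- the generator `T_{i+1}` -/
noncomputable def T (n : ℕ) (i : Fin (n - 1)) : Hecke n :=
  quo n (FreeAlgebra.ι KK i)

lemma qq_ne : qq ≠ 0 := RatFunc.X_ne_zero

lemma T_braid {n : ℕ} (i j : Fin (n - 1)) (h : (i : ℕ) + 1 = j) :
    T n i * T n j * T n i = T n j * T n i * T n j := by
  have := quo_rel (HRel.braid i j h)
  simpa [T, let'] using this

lemma T_comm {n : ℕ} (i j : Fin (n - 1)) (h : (i : ℕ) + 1 < j) :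
    T n i * T n j = T n j * T n i := by
  have := quo_rel (HRel.comm i j h)
  simpa [T, let'] using this

lemma T_quad {n : ℕ} (i : Fin (n - 1)) : T n i * T n i = 1 + (qq - qq⁻¹) • T n i := by
  have h := quo_rel (HRel.quad i)
  unfold let' scal at h
  rw [map_mul, map_sub, map_add, AlgHom.commutes, AlgHom.commutes, map_zero] at h
  change (T n i - algebraMap KK _ qq) * (T n i + algebraMap KK _ qq⁻¹) = 0 at h
  have h2 : (algebraMap KK (Hecke n) qq) * (algebraMap KK (Hecke n) qq⁻¹) = 1 := by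
    rw [← map_mul, mul_inv_cancel₀ qq_ne, map_one]
  have h3 : (T n i - algebraMap KK _ qq) * (T n i + algebraMap KK _ qq⁻¹) =
      T n i * T n i - ((qq - qq⁻¹) • T n i) - 1 := by
    rw [sub_mul, mul_add, mul_add, h2, ← Algebra.commutes qq⁻¹ (T n i), sub_smul,
      Algebra.smul_def, Algebra.smul_def]
    abel
  rw [h3] at h
  rw [sub_sub, sub_eq_zero] at h
  rw [h, add_comm]

lemma Tu_inv {n : ℕ} (i : Fin (n - 1)) : T n i * (T n i - (qq - qq⁻¹) • 1) = 1 := by
  rw [mul_sub, T_quad, mul_smul_comm, mul_one]; abel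

lemma Tu_inv' {n : ℕ} (i : Fin (n - 1)) : (T n i - (qq - qq⁻¹) • 1) * T n i = 1 := by
  rw [sub_mul, T_quad, smul_mul_assoc, one_mul]; abel

/-- the generator `T_{i+1}` as an invertible element; its inverse is `T_{i+1} - (q - q⁻¹)` -/
noncomputable def Tu (n : ℕ) (i : Fin (n - 1)) : (Hecke n)ˣ :=
  ⟨T n i, T n i - (qq - qq⁻¹) • 1, Tu_inv i, Tu_inv' i⟩

/-- `T_k` for `1 ≤ k ≤ n - 1` (and one for other `k`) -/
noncomputable def Tk (n k : ℕ) : (Hecke n)ˣ :=
  if h : 1 ≤ k ∧ k < n then Tu n ⟨k - 1, by omega⟩ else 1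

/-- a reduced word of `σ` -/
noncomputable def redWord {n : ℕ} (σ : Perm (Fin n)) : List (Fin (n - 1)) :=
  Classical.choose (exists_reduced σ)

/-- the Coxeter length -/
noncomputable def len {n : ℕ} (σ : Perm (Fin n)) : ℕ := (redWord σ).length

/-- the element `T_σ` -/
noncomputable def TT {n : ℕ} (σ : Perm (Fin n)) : Hecke n := ((redWord σ).map (T n)).prod

/-- the letter `i` of `S_{N+1}` as a letter of `S_n` -/
def up {N n : ℕ} (h : N + 1 ≤ n) (i : Fin (N + 1 - 1)) : Fin (n - 1) := ⟨i, by have := i.2; omega⟩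

variable {N : ℕ}

/-- `n = μ_1 + ... + μ_{N+1}` -/
def nn (μ : Fin (N + 1) → ℕ) : ℕ := ∑ j, μ j

/-- `m_k = μ_1 + ... + μ_k` -/
def mm (μ : Fin (N + 1) → ℕ) (k : ℕ) : ℕ := ∑ j : Fin (N + 1) with j.val < k, μ j

/-- the subgroup `S_μ` generated by the `s_{i+1}` with `i + 1` not in `{m_1, ..., m_N}` -/
def Smu (μ : Fin (N + 1) → ℕ) : Subgroup (Perm (Fin (nn μ))) :=
  Subgroup.closure {s | ∃ i : Fin (nn μ - 1),
    (∀ k, 1 ≤ k → k ≤ N → (i : ℕ) + 1 ≠ mm μ k) ∧ s = simple (nn μ) i}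

open Classical in
/-- the idempotent `e_μ` -/
noncomputable def emu (μ : Fin (N + 1) → ℕ) : Hecke (nn μ) :=
  (∑ σ : Perm (Fin (nn μ)) with σ ∈ Smu μ, qq ^ (2 * len σ))⁻¹ •
    ∑ σ : Perm (Fin (nn μ)) with σ ∈ Smu μ, qq ^ len σ • TT σ

/-- `T_{γ_μ}`, the product over `k = 1, ..., N` of `T_{m_k} T_{m_k - 1} ... T_{k+1}` -/
noncomputable def Tgamma (μ : Fin (N + 1) → ℕ) : (Hecke (nn μ))ˣ :=
  ((List.range' 1 N).map (fun k =>
    ((List.range (mm μ k - k)).map (fun j => Tk (nn μ) (mm μ k - j))).prod)).prod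

/-- the coefficient `(-1)^ℓ(σ) q^(L - ℓ(σ))` with `L = N (N + 1) / 2` -/
noncomputable def coef (N : ℕ) (σ : Perm (Fin (N + 1))) : KK :=
  (-1) ^ len σ * qq ^ (((N * (N + 1) / 2 : ℕ) : ℤ) - (len σ : ℤ))

/-- the image of `T_σ`, `σ ∈ S_{N+1}`, under `H(S_{N+1}) → H(S_n)`, `T_i ↦ T_i`: the product of
generators of `H(S_n)` along a reduced word of `σ` in `S_{N+1}` -/
noncomputable def TTin {N n : ℕ} (h : N + 1 ≤ n) (σ : Perm (Fin (N + 1))) : Hecke n :=
  ((redWord σ).map (fun i => T n (up h i))).prod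

/-- the unnormalised `q`-antisymmetriser `A_{N+1}`, viewed in `H(S_n)` via `T_i ↦ T_i` -/
noncomputable def Anti {N n : ℕ} (h : N + 1 ≤ n) : Hecke n :=
  ∑ σ : Perm (Fin (N + 1)), coef N σ • TTin h σ

lemma le_nn (μ : Fin (N + 1) → ℕ) (hμ : ∀ k, 0 < μ k) : N + 1 ≤ nn μ := by
  unfold nn
  calc N + 1 = ∑ j : Fin (N + 1), 1 := by simp
    _ ≤ ∑ j, μ j := sum_le_sum (fun j _ => hμ j)

/-- `X^μ_N = e_μ T_γ A T_γ⁻¹ e_μ` -/
noncomputable def Xmu (μ : Fin (N + 1) → ℕ) (hμ : ∀ k, 0 < μ k) : Hecke (nn μ) :=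
  emu μ * (Tgamma μ : Hecke (nn μ)) * Anti (le_nn μ hμ) *
    (((Tgamma μ)⁻¹ : (Hecke (nn μ))ˣ) : Hecke (nn μ)) * emu μ

end Pool.Agent.X254.HC
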