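import Pool.Agent.X254.HC.Main

set_option autoImplicit false

namespace Pool.Agent.X254.HC

open Finset Equiv

section Gamma

variable {M : Type*} [Monoid M]

lemma E_gap (t : ℕ → M) {D : Finset ℕ} {a b : ℕ} (hab : a ≤ b)
    (h : ∀ x, a ≤ x → x < b → x ∉ D) : E t D b = E t D a ∧ rk D b = rk D a := by
  induction b, hab using Nat.le_induction with
  | base => exact ⟨rfl, rfl⟩
  | succ b hb ih =>
    obtain ⟨h1, h2⟩ := ih (fun x hx hx' => h x hx (by omega))
    have h3 := h b hb (by omega)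
    exact ⟨by rw [E_succ_not t h3, h1], by rw [rk_succ, if_neg h3, h2, add_zero]⟩

lemma mem_D0 {m : ℕ → ℕ} {N x : ℕ} : x ∈ D0 m N ↔ ∃ k, k ≤ N ∧ m k = x := by
  unfold D0
  rw [mem_image]
  constructor
  · rintro ⟨k, hk, h⟩; exact ⟨k, by rw [mem_range] at hk; omega, h⟩
  · rintro ⟨k, hk, h⟩; exact ⟨k, by rw [mem_range]; omega, h⟩

lemma E_D0_aux (t : ℕ → M) {m : ℕ → ℕ} {N : ℕ} (m0 : m 0 = 0)
    (hlt : ∀ k l, k < l → l ≤ N → m k < m l) (k : ℕ) (hk : k ≤ N) :
    rk (D0 m N) (m k) = k ∧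
      E t (D0 m N) (m k) = ((List.range k).map (fun j => C t j (m j))).prod := by
  induction k with
  | zero => rw [m0]; exact ⟨rk_zero _, rfl⟩
  | succ k ih =>
    obtain ⟨h1, h2⟩ := ih (by omega)
    have h3 := hlt k (k + 1) (by omega) hk
    have h4 := E_gap t (D := D0 m N) (a := m k + 1) (b := m (k + 1)) h3 (by
      intro x hx hx' hxD
      obtain ⟨l, hl, rfl⟩ := mem_D0.1 hxD
      rcases Nat.lt_or_ge k l with h | h
      · rcases Nat.lt_or_ge (k + 1) l with h' | h'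
        · have := hlt (k + 1) l h' hl; omega
        · have : l = k + 1 := by omega
          subst this; omega
      · rcases Nat.lt_or_ge l k with h' | h'
        · have := hlt l k h' (by omega); omega
        · have : l = k := by omega
          subst this; omega)
    have hmem : m k ∈ D0 m N := mem_D0.2 ⟨k, by omega, rfl⟩
    refine ⟨?_, ?_⟩
    · rw [h4.2, rk_succ, if_pos hmem, h1]
    · rw [h4.1, E_succ_mem t hmem, h1, h2, List.range_succ, List.map_append, List.prod_append]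
      simp

lemma E_D0 (t : ℕ → M) {m : ℕ → ℕ} {N n : ℕ} (m0 : m 0 = 0)
    (hlt : ∀ k l, k < l → l ≤ N → m k < m l) (hn : m N < n) :
    E t (D0 m N) n = ((List.range' 1 N).map (fun j => C t j (m j))).prod := by
  obtain ⟨h1, h2⟩ := E_D0_aux t m0 hlt N le_rfl
  have h4 := E_gap t (D := D0 m N) (a := m N + 1) (b := n) hn (by
      intro x hx hx' hxD
      obtain ⟨l, hl, rfl⟩ := mem_D0.1 hxD
      rcases Nat.lt_or_ge l N with h' | h'
      · have := hlt l N h' (by omega); omega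
      · have : l = N := by omega
        subst this; omega)
  have hmem : m N ∈ D0 m N := mem_D0.2 ⟨N, le_rfl, rfl⟩
  have h5 : E t (D0 m N) n = ((List.range (N + 1)).map (fun j => C t j (m j))).prod := by
    rw [h4.1, E_succ_mem t hmem, h1, h2, List.range_succ, List.map_append, List.prod_append]
    simp
  rw [h5, List.range_succ_eq_map, List.map_cons, List.prod_cons, m0, C_le t le_rfl, one_mul,
    List.map_map, List.range'_eq_map_range, List.map_map]
  congr 1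
  apply List.map_congr_left
  intro j _
  simp only [Function.comp_apply, Nat.succ_eq_add_one, add_comm]

lemma C_list (n : ℕ) (k a : ℕ) :
    C (tu n) k a = ((List.range (a - k)).map (fun j => Tk n (a - j))).prod := by
  rcases Nat.lt_or_ge a k with h | h
  · rw [C_le _ h.le, show a - k = 0 by omega]; simp
  · obtain ⟨d, rfl⟩ := Nat.exists_eq_add_of_le h
    clear h
    induction d with
    | zero => rw [C_le _ (by omega)]; simp
    | succ d ih =>
      rw [← add_assoc, C_succ _ (by omega), ih, show k + d + 1 - k = d + 1 by omega,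
        show k + d - k = d by omega, List.range_succ_eq_map, List.map_cons, List.prod_cons,
        List.map_map]
      congr 2
      apply List.map_congr_left
      intro j _
      simp only [Function.comp_apply, Nat.succ_eq_add_one]
      congr 1
      omega

end Gamma

lemma gen_comm {n : ℕ} {B : Type*} [Ring B] [Algebra KK B] (f : Hecke n →ₐ[KK] B) (b : B)
    (h : ∀ i, f (T n i) * b = b * f (T n i)) (x : Hecke n) : f x * b = b * f x := by
  obtain ⟨y, rfl⟩ := quo_surj n x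
  induction y using FreeAlgebra.induction with
  | grade0 r => rw [AlgHom.commutes, AlgHom.commutes]; exact Algebra.commutes r b
  | grade1 i => exact h i
  | mul y z hy hz => rw [map_mul, map_mul, mul_assoc, hz, ← mul_assoc, hy, mul_assoc]
  | add y z hy hz => rw [map_add, map_add, add_mul, mul_add, hy, hz]

lemma Anti_eq (N : ℕ) :
    Anti0 N = qq ^ (N * (N + 1) / 2) • SS (⊤ : Subgroup (Perm (Fin (N + 1)))) (-qq⁻¹) := by
  unfold Anti0 SS
  rw [smul_sum]
  apply sum_congr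
  · ext σ; simp
  · intro σ _
    rw [smul_smul]
    congr 1
    rw [zpow_sub₀ qq_ne, zpow_natCast, zpow_natCast, neg_pow (qq⁻¹), inv_pow, div_eq_mul_inv]
    ring

lemma Anti_left (N : ℕ) {i : ℕ} (hi : i < N) :
    tt (N + 1) i * Anti0 N = (-qq⁻¹) • Anti0 N := by
  have := SS_left (n := N + 1) (G := ⊤) eps_q' (i := ⟨i, by omega⟩) (Subgroup.mem_top _)
  rw [Anti_eq, mul_smul_comm, this, smul_comm]

lemma Anti_right (N : ℕ) {i : ℕ} (hi : i < N) :
    Anti0 N * tt (N + 1) i = (-qq⁻¹) • Anti0 N := by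
  have := SS_right (n := N + 1) (G := ⊤) eps_q' (i := ⟨i, by omega⟩) (Subgroup.mem_top _)
  rw [Anti_eq, smul_mul_assoc, this, smul_comm]

section Top

variable {N : ℕ}

lemma mm_lt (μ : Fin (N + 1) → ℕ) (hμ : ∀ k, 0 < μ k) (k l : ℕ) (h : k < l) (hl : l ≤ N + 1) :
    mm μ k < mm μ l := by
  induction l with
  | zero => omega
  | succ l ih =>
    have h1 := mm_succ μ (k := l) (by omega)
    have h2 := hμ ⟨l, by omega⟩
    rcases Nat.lt_or_ge k l with h3 | h3
    · have := ih h3 (by omega); omega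
    · have : k = l := by omega
      subst this; omega

/-- generators of `S_μ` -/
def JJ (μ : Fin (N + 1) → ℕ) : Set (Fin (nn μ - 1)) :=
  {i | ∀ k, 1 ≤ k → k ≤ N → (i : ℕ) + 1 ≠ mm μ k}

lemma Smu_eq (μ : Fin (N + 1) → ℕ) : Smu μ = PJ (JJ μ) := rfl

lemma emu_eq (μ : Fin (N + 1) → ℕ) : ∃ P : KK, P ≠ 0 ∧ emu μ = P⁻¹ • SS (PJ (JJ μ)) qq ∧
    SS (PJ (JJ μ)) qq * SS (PJ (JJ μ)) qq = P • SS (PJ (JJ μ)) qq := by
  classical
  refine ⟨_, ?_, ?_, SS_sq⟩
  · apply sum_pow_ne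
    exact ⟨1, by rw [mem_filter]; exact ⟨mem_univ _, Subgroup.one_mem _⟩⟩
  · unfold emu SS
    rfl

lemma emu_idem (μ : Fin (N + 1) → ℕ) : emu μ * emu μ = emu μ := by
  obtain ⟨P, hP, h1, h2⟩ := emu_eq μ
  rw [h1, smul_mul_assoc, mul_smul_comm, h2, smul_smul, smul_smul, mul_assoc,
    inv_mul_cancel₀ hP, mul_one]

lemma emu_left (μ : Fin (N + 1) → ℕ) {i : ℕ} (hi : i + 1 < nn μ)
    (hk : ∀ k ≤ N, i + 1 ≠ mm μ k) : tt (nn μ) i * emu μ = qq • emu μ := by
  obtain ⟨P, hP, h1, h2⟩ := emu_eq μ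
  have h3 : (⟨i, by omega⟩ : Fin (nn μ - 1)) ∈ JJ μ := fun k _ h => hk k h
  rw [h1, mul_smul_comm, SS_left (i := ⟨i, by omega⟩) eps_q (simple_mem h3), smul_comm]

lemma emu_right (μ : Fin (N + 1) → ℕ) {i : ℕ} (hi : i + 1 < nn μ)
    (hk : ∀ k ≤ N, i + 1 ≠ mm μ k) : emu μ * tt (nn μ) i = qq • emu μ := by
  obtain ⟨P, hP, h1, h2⟩ := emu_eq μ
  have h3 : (⟨i, by omega⟩ : Fin (nn μ - 1)) ∈ JJ μ := fun k _ h => hk k h
  rw [h1, smul_mul_assoc, SS_right (i := ⟨i, by omega⟩) eps_q (simple_mem h3), smul_comm]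

lemma dat (μ : Fin (N + 1) → ℕ) (hμ : ∀ k, 0 < μ k) :
    Dat (nn μ) N qq (tt (nn μ)) (Anti (le_nn μ hμ)) (emu μ) (mm μ) where
  br := braid_tt _
  qd i hi := quad_tt hi
  Al i hi := by rw [Anti_incl, ← incl_tt (le_nn μ hμ) hi, ← map_mul, Anti_left N hi, map_smul]
  Ar i hi := by rw [Anti_incl, ← incl_tt (le_nn μ hμ) hi, ← map_mul, Anti_right N hi, map_smul]
  Ac i hi hi' := by
    symm
    rw [Anti_incl]
    apply gen_comm (incl (le_nn μ hμ)) (tt (nn μ) i)
    intro j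
    rw [← tt_fin j, incl_tt (le_nn μ hμ) (by have := j.2; omega)]
    exact (braid_tt _).cm j i (by have := j.2; omega) hi'
  el i hi hk := emu_left μ hi hk
  er i hi hk := emu_right μ hi hk
  m0 := mm_zero μ
  mono k hk := mm_lt μ hμ k (k + 1) (by omega) (by omega)
  mn := by rw [← mm_last μ]; exact mm_lt μ hμ N (N + 1) (by omega) le_rfl

lemma Tgamma_eq (μ : Fin (N + 1) → ℕ) (hμ : ∀ k, 0 < μ k) :
    Tgamma μ = E (tu (nn μ)) (D0 (mm μ) N) (nn μ) := by
  have d := dat μ hμ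
  rw [E_D0 (tu (nn μ)) d.m0 (fun k l h hl => d.lt h hl) d.mn]
  unfold Tgamma
  congr 1
  apply List.map_congr_left
  intro k _
  rw [C_list]

theorem Z_central (μ : Fin (N + 1) → ℕ) (hμ : ∀ k, 0 < μ k) (x : Hecke (nn μ)) :
    x * Z (nn μ) N (tt (nn μ)) (Anti (le_nn μ hμ)) =
      Z (nn μ) N (tt (nn μ)) (Anti (le_nn μ hμ)) * x := by
  apply gen_comm (AlgHom.id KK (Hecke (nn μ)))
  intro i
  rw [AlgHom.id_apply, ← tt_fin i]
  exact Z_comm (dat μ hμ) (by have := i.2; omega)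

theorem exists_central (μ : Fin (N + 1) → ℕ) (hμ : ∀ k, 0 < μ k) :
    ∃ z : Hecke (nn μ), (∀ x : Hecke (nn μ), x * z = z * x) ∧ Xmu μ hμ = z * emu μ := by
  classical
  have d := dat μ hμ
  have h1 := eZe d q_add_inv_ne (tu := tu (nn μ)) (fun i => rfl)
  have hX : Xmu μ hμ = emu μ * (E (tu (nn μ)) (D0 (mm μ) N) (nn μ) : (Hecke (nn μ))ˣ) *
      Anti (le_nn μ hμ) *
      (((E (tu (nn μ)) (D0 (mm μ) N) (nn μ))⁻¹ : (Hecke (nn μ))ˣ) : Hecke (nn μ)) * emu μ := by
    unfold Xmu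
    rw [Tgamma_eq μ hμ]
  rw [← hX] at h1
  set c := ∑ D ∈ (powersetCard (N + 1) (range (nn μ))).filter (fun D => ¬ Bad (mm μ) N D),
      qq ^ (2 * (∑ x ∈ D, x - ∑ x ∈ D0 (mm μ) N, x)) with hc
  have hc0 : c ≠ 0 := by
    apply sum_pow_ne
    refine ⟨D0 (mm μ) N, ?_⟩
    rw [mem_filter, mem_powersetCard]
    refine ⟨⟨D0_sub d, card_D0 d⟩, ?_⟩
    rintro ⟨a, b, ha, hb, hab, hk⟩
    obtain ⟨k, hk1, rfl⟩ := mem_D0.1 hb
    exact hk k hk1 ⟨hab, le_rfl⟩
  have h2 : Xmu μ hμ = c⁻¹ • (emu μ * Z (nn μ) N (tt (nn μ)) (Anti (le_nn μ hμ)) * emu μ) := by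
    rw [h1, smul_smul, inv_mul_cancel₀ hc0, one_smul]
  have hz := Z_central μ hμ
  refine ⟨c⁻¹ • Z (nn μ) N (tt (nn μ)) (Anti (le_nn μ hμ)), ?_, ?_⟩
  · intro x
    rw [mul_smul_comm, smul_mul_assoc, hz]
  · rw [h2, smul_mul_assoc, hz (emu μ), mul_assoc, emu_idem]

theorem central (μ : Fin (N + 1) → ℕ) (hμ : ∀ k, 0 < μ k) (x : Hecke (nn μ)) :
    Xmu μ hμ * (emu μ * x * emu μ) = (emu μ * x * emu μ) * Xmu μ hμ := by
  obtain ⟨z, hz, hX⟩ := exists_central μ hμ
  rw [hX]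
  set e := emu μ
  have he : e * e = e := emu_idem μ
  calc z * e * (e * x * e) = z * (e * x * e) := by
        rw [mul_assoc z, ← mul_assoc e (e * x), ← mul_assoc e e x, he]
    _ = (e * x * e) * z := (hz _).symm
    _ = (e * x * e) * e * z := by rw [mul_assoc (e * x) e e, he]
    _ = (e * x * e) * (z * e) := by rw [mul_assoc (e * x * e) e z, hz e]

end Top

end Pool.Agent.X254.HC
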