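import Pool.Agent.X254.HC.Alg
import Pool.Agent.X254.HC.Defs

set_option autoImplicit false

namespace Pool.Agent.X254.HC

open Finset Equiv

/-- an algebra homomorphism out of `H(S_n)`, given by one out of the free algebra that respects
the relations -/
noncomputable def hlift {n : ℕ} {B : Type*} [Ring B] [Algebra KK B]
    (f : FreeAlgebra KK (Fin (n - 1)) →ₐ[KK] B) (hf : ∀ ⦃x y⦄, HRel n x y → f x = f y) :
    Hecke n →ₐ[KK] B := RingQuot.liftAlgHom KK ⟨f, hf⟩

lemma hlift_quo {n : ℕ} {B : Type*} [Ring B] [Algebra KK B]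
    (f : FreeAlgebra KK (Fin (n - 1)) →ₐ[KK] B) (hf : ∀ ⦃x y⦄, HRel n x y → f x = f y)
    (x : FreeAlgebra KK (Fin (n - 1))) : hlift f hf (quo n x) = f x :=
  RingQuot.liftAlgHom_mkAlgHom_apply KK f hf x

/-- the homomorphism of the free algebra with `T_i ↦ T_i` -/
noncomputable def inclFree {N n : ℕ} (h : N + 1 ≤ n) :
    FreeAlgebra KK (Fin (N + 1 - 1)) →ₐ[KK] Hecke n := FreeAlgebra.lift KK (fun i => T n (up h i))

lemma inclFree_rel {N n : ℕ} (h : N + 1 ≤ n) ⦃x y : FreeAlgebra KK (Fin (N + 1 - 1))⦄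
    (hxy : HRel (N + 1) x y) : inclFree h x = inclFree h y := by
  unfold inclFree
  cases hxy with
  | braid i j hij =>
    simp only [let', map_mul, FreeAlgebra.lift_ι_apply]
    exact T_braid _ _ hij
  | comm i j hij =>
    simp only [let', map_mul, FreeAlgebra.lift_ι_apply]
    exact T_comm _ _ hij
  | quad i =>
    simp only [let', scal, map_mul, map_sub, map_add, map_zero, FreeAlgebra.lift_ι_apply, AlgHom.commutes]
    have h2 : (algebraMap KK (Hecke n) qq) * (algebraMap KK (Hecke n) qq⁻¹) = 1 := by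
      rw [← map_mul, mul_inv_cancel₀ qq_ne, map_one]
    rw [sub_mul, mul_add, mul_add, h2, ← Algebra.commutes qq⁻¹ (T n _), T_quad, sub_smul,
      Algebra.smul_def, Algebra.smul_def]
    abel

/-- the algebra homomorphism `H(S_{N+1}) → H(S_n)`, `T_i ↦ T_i` -/
noncomputable def incl {N n : ℕ} (h : N + 1 ≤ n) : Hecke (N + 1) →ₐ[KK] Hecke n :=
  hlift (inclFree h) (inclFree_rel h)

/-- the unnormalised `q`-antisymmetriser in `H(S_{N+1})`; here `L = N (N + 1) / 2` -/
noncomputable def Anti0 (N : ℕ) : Hecke (N + 1) :=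
  ∑ σ : Perm (Fin (N + 1)), ((-1) ^ len σ * qq ^ (((N * (N + 1) / 2 : ℕ) : ℤ) - (len σ : ℤ))) • TT σ

variable {n : ℕ}

/-- generators indexed by `ℕ`, `tt i = T_{i+1}` -/
noncomputable def tu (n : ℕ) (i : ℕ) : (Hecke n)ˣ := Tk n (i + 1)

noncomputable def tt (n : ℕ) (i : ℕ) : Hecke n := (tu n i : Hecke n)

lemma tt_eq {i : ℕ} (h : i + 1 < n) : tt n i = T n ⟨i, by omega⟩ := by
  unfold tt tu Tk
  rw [dif_pos ⟨by omega, h⟩]
  rfl

lemma tt_fin (i : Fin (n - 1)) : tt n i = T n i := by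
  rw [tt_eq (by have := i.2; omega)]

lemma braid_tt (n : ℕ) : Braid n (tt n) where
  br i hi := by
    rw [tt_eq (by omega), tt_eq (by omega)]
    exact T_braid _ _ rfl
  cm i j h hj := by
    rw [tt_eq (by omega), tt_eq (by omega)]
    exact T_comm _ _ (by simp only; omega)

lemma quad_tt {i : ℕ} (h : i + 1 < n) : tt n i * tt n i = 1 + (qq - qq⁻¹) • tt n i := by
  rw [tt_eq h]; exact T_quad _

lemma pt_tt (w : List (Fin (n - 1))) : pt (tt n) w = (w.map (T n)).prod := by
  unfold pt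
  congr 1
  apply List.map_congr_left
  intro i _
  exact tt_fin i

lemma redWord_spec (σ : Perm (Fin n)) : wordPerm n (redWord σ) = σ ∧ IsReduced n (redWord σ) :=
  Classical.choose_spec (exists_reduced σ)

lemma len_eq (σ : Perm (Fin n)) : len σ = inv σ := by
  obtain ⟨h1, h2⟩ := redWord_spec σ
  rw [isReduced_iff, h1] at h2
  exact h2

theorem TT_word {w : List (Fin (n - 1))} (h : IsReduced n w) :
    TT (wordPerm n w) = pt (tt n) w := by
  obtain ⟨h1, h2⟩ := redWord_spec (wordPerm n w)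
  rw [isReduced_iff] at h
  rw [isReduced_iff, h1] at h2
  unfold TT
  rw [← pt_tt]
  exact matsumoto (braid_tt n) _ _ _ h1 h2 h (by rw [h1])

lemma TT_one : TT (1 : Perm (Fin n)) = 1 := by
  have h : IsReduced n ([] : List (Fin (n - 1))) := by
    intro w' _; exact Nat.zero_le _
  have := TT_word h
  simpa [wordPerm, pt] using this

lemma TT_left (σ : Perm (Fin n)) (i : Fin (n - 1)) (h : inv (simple n i * σ) = inv σ + 1) :
    TT (simple n i * σ) = tt n i * TT σ := by
  obtain ⟨h1, h2⟩ := redWord_spec σ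
  rw [isReduced_iff, h1] at h2
  have h3 : wordPerm n (i :: redWord σ) = simple n i * σ := by
    unfold wordPerm at h1 ⊢
    rw [List.map_cons, List.prod_cons, h1]
  have h4 : IsReduced n (i :: redWord σ) := by
    rw [isReduced_iff, h3, h, List.length_cons, h2]
  rw [← h3, TT_word h4]
  unfold TT pt
  rw [List.map_cons, List.prod_cons]
  congr 1
  have := pt_tt (redWord σ)
  unfold pt at this
  exact this

lemma TT_right (σ : Perm (Fin n)) (i : Fin (n - 1)) (h : inv (σ * simple n i) = inv σ + 1) :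
    TT (σ * simple n i) = TT σ * tt n i := by
  obtain ⟨h1, h2⟩ := redWord_spec σ
  rw [isReduced_iff, h1] at h2
  have h3 : wordPerm n (redWord σ ++ [i]) = σ * simple n i := by
    rw [wordPerm_append, h1, wordPerm_one]
  have h4 : IsReduced n (redWord σ ++ [i]) := by
    rw [isReduced_iff, h3, h, List.length_append, h2]; rfl
  rw [← h3, TT_word h4, pt_append, pt_one, pt_tt]
  rfl

lemma inv_left_cases (σ : Perm (Fin n)) (i : Fin (n - 1)) :
    inv (simple n i * σ) = inv σ + 1 ∨ inv σ = inv (simple n i * σ) + 1 := by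
  have h1 : inv (simple n i * σ) = inv (σ⁻¹ * simple n i) := by
    rw [← inv_inv (simple n i * σ), mul_inv_rev, simple_inv]
  rw [h1, ← inv_inv σ]
  exact inv_cases σ⁻¹ i

section Sums

open Classical in
/-- `∑ ε^ℓ(σ) T_σ` over a subgroup -/
noncomputable def SS (G : Subgroup (Perm (Fin n))) (ε : KK) : Hecke n :=
  ∑ σ : Perm (Fin n) with σ ∈ G, ε ^ len σ • TT σ

lemma alg_aux {ε : KK} (hε : ε * ε = 1 + (qq - qq⁻¹) * ε) {k : ℕ} {t x : Hecke n}
    (ht : t * t = 1 + (qq - qq⁻¹) • t) :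
    (ε ^ k • (t * x) - ε • ε ^ k • x) + (ε ^ (k + 1) • (t * (t * x)) - ε • ε ^ (k + 1) • (t * x)) = 0 := by
  rw [← mul_assoc t t x, ht, add_mul, one_mul, smul_mul_assoc, smul_add, smul_smul, smul_smul,
    smul_smul]
  have h1 : ε * ε ^ (k + 1) = ε ^ k + ε ^ (k + 1) * (qq - qq⁻¹) := by
    calc ε * ε ^ (k + 1) = ε ^ k * (ε * ε) := by ring
      _ = _ := by rw [hε]; ring
  rw [h1, add_smul, ← pow_succ']
  abel

lemma alg_aux' {ε : KK} (hε : ε * ε = 1 + (qq - qq⁻¹) * ε) {k : ℕ} {t x : Hecke n}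
    (ht : t * t = 1 + (qq - qq⁻¹) • t) :
    (ε ^ k • (x * t) - ε • ε ^ k • x) + (ε ^ (k + 1) • ((x * t) * t) - ε • ε ^ (k + 1) • (x * t)) = 0 := by
  rw [mul_assoc x t t, ht, mul_add, mul_one, mul_smul_comm, smul_add, smul_smul, smul_smul,
    smul_smul]
  have h1 : ε * ε ^ (k + 1) = ε ^ k + ε ^ (k + 1) * (qq - qq⁻¹) := by
    calc ε * ε ^ (k + 1) = ε ^ k * (ε * ε) := by ring
      _ = _ := by rw [hε]; ring
  rw [h1, add_smul, ← pow_succ']
  abel

lemma SS_left {G : Subgroup (Perm (Fin n))} {ε : KK} (hε : ε * ε = 1 + (qq - qq⁻¹) * ε)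
    {i : Fin (n - 1)} (hi : simple n i ∈ G) : tt n i * SS G ε = ε • SS G ε := by
  classical
  unfold SS
  rw [mul_sum, smul_sum, ← sub_eq_zero, ← sum_sub_distrib]
  have hq := quad_tt (n := n) (i := i) (by have := i.2; omega)
  have up : ∀ σ : Perm (Fin n), inv (simple n i * σ) = inv σ + 1 →
      (tt n i * ε ^ len σ • TT σ - ε • ε ^ len σ • TT σ) +
      (tt n i * ε ^ len (simple n i * σ) • TT (simple n i * σ) -
        ε • ε ^ len (simple n i * σ) • TT (simple n i * σ)) = 0 := by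
    intro σ h
    rw [TT_left σ i h, len_eq, len_eq, h, mul_smul_comm, mul_smul_comm]
    exact alg_aux hε hq
  apply sum_involution (fun σ _ => simple n i * σ)
  · intro σ _
    rcases inv_left_cases σ i with h | h
    · exact up σ h
    · have h2 := up (simple n i * σ) (by rw [← mul_assoc, simple_mul_self, one_mul]; exact h)
      rw [← mul_assoc, simple_mul_self, one_mul] at h2
      rw [add_comm]; exact h2
  · intro σ _ _ h
    rcases inv_left_cases σ i with h2 | h2 <;> (rw [h] at h2; omega)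
  · intro σ h
    rw [mem_filter] at h ⊢
    exact ⟨mem_univ _, G.mul_mem hi h.2⟩
  · intro σ _
    rw [← mul_assoc, simple_mul_self, one_mul]

lemma SS_right {G : Subgroup (Perm (Fin n))} {ε : KK} (hε : ε * ε = 1 + (qq - qq⁻¹) * ε)
    {i : Fin (n - 1)} (hi : simple n i ∈ G) : SS G ε * tt n i = ε • SS G ε := by
  classical
  unfold SS
  rw [sum_mul, smul_sum, ← sub_eq_zero, ← sum_sub_distrib]
  have hq := quad_tt (n := n) (i := i) (by have := i.2; omega)
  have up : ∀ σ : Perm (Fin n), inv (σ * simple n i) = inv σ + 1 →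
      (ε ^ len σ • TT σ * tt n i - ε • ε ^ len σ • TT σ) +
      (ε ^ len (σ * simple n i) • TT (σ * simple n i) * tt n i -
        ε • ε ^ len (σ * simple n i) • TT (σ * simple n i)) = 0 := by
    intro σ h
    rw [TT_right σ i h, len_eq, len_eq, h, smul_mul_assoc, smul_mul_assoc]
    exact alg_aux' hε hq
  apply sum_involution (fun σ _ => σ * simple n i)
  · intro σ _
    rcases inv_cases σ i with h | h
    · exact up σ h
    · have h2 := up (σ * simple n i) (by rw [mul_assoc, simple_mul_self, mul_one]; exact h)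
      rw [mul_assoc σ, simple_mul_self, mul_one] at h2
      rw [add_comm]; exact h2
  · intro σ _ _ h
    rcases inv_cases σ i with h2 | h2 <;> (rw [h] at h2; omega)
  · intro σ h
    rw [mem_filter] at h ⊢
    exact ⟨mem_univ _, G.mul_mem h.2 hi⟩
  · intro σ _
    rw [mul_assoc, simple_mul_self, mul_one]

lemma eps_q : qq * qq = 1 + (qq - qq⁻¹) * qq := by
  rw [sub_mul, inv_mul_cancel₀ qq_ne]; ring

lemma eps_q' : (-qq⁻¹) * (-qq⁻¹) = 1 + (qq - qq⁻¹) * (-qq⁻¹) := by
  have h := mul_inv_cancel₀ qq_ne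
  have h2 : (-qq⁻¹) * (-qq⁻¹) = 1 + (qq - qq⁻¹) * (-qq⁻¹) + (qq * qq⁻¹ - 1) := by ring
  rw [h2, h]; ring

lemma sum_pow_ne {ι : Type*} (s : Finset ι) (hs : s.Nonempty) (a : ι → ℕ) :
    ∑ i ∈ s, qq ^ a i ≠ 0 := by
  intro h
  have h1 : ∑ i ∈ s, qq ^ a i = algebraMap (Polynomial ℂ) (RatFunc ℂ)
      (∑ i ∈ s, Polynomial.X ^ a i) := by
    rw [map_sum]
    apply sum_congr rfl
    intro i _
    rw [map_pow, RatFunc.algebraMap_X]; rfl
  rw [h1, map_eq_zero_iff _ (RatFunc.algebraMap_injective ℂ)] at h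
  have h2 := congrArg (Polynomial.eval 1) h
  rw [Polynomial.eval_finsetSum] at h2
  simp only [Polynomial.eval_pow, Polynomial.eval_X, one_pow, sum_const, nsmul_eq_mul, mul_one,
    Polynomial.eval_zero, Nat.cast_eq_zero] at h2
  exact hs.card_pos.ne' h2

lemma q_add_inv_ne : qq + qq⁻¹ ≠ 0 := by
  intro h
  have h1 : ∑ i ∈ range 2, qq ^ (2 * i) ≠ 0 := sum_pow_ne _ ⟨0, by simp⟩ _
  apply h1
  rw [sum_range_succ, sum_range_succ, sum_range_zero]
  have h2 : qq * (qq + qq⁻¹) = 0 := by rw [h, mul_zero]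
  rw [mul_add, mul_inv_cancel₀ qq_ne] at h2
  simp only [mul_zero, pow_zero, mul_one]
  rw [pow_two]
  rw [zero_add, add_comm]; exact h2

end Sums

section Idem

variable {J : Set (Fin (n - 1))}

/-- the parabolic subgroup -/
def PJ (J : Set (Fin (n - 1))) : Subgroup (Perm (Fin n)) :=
  Subgroup.closure {s | ∃ i : Fin (n - 1), i ∈ J ∧ s = simple n i}

lemma simple_mem {i : Fin (n - 1)} (h : i ∈ J) : simple n i ∈ PJ J :=
  Subgroup.subset_closure ⟨i, h, rfl⟩

lemma TT_mul_SS {σ : Perm (Fin n)} (hσ : σ ∈ PJ J) :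
    TT σ * SS (PJ J) qq = qq ^ len σ • SS (PJ J) qq := by
  have key : ∀ (i : Fin (n - 1)), i ∈ J → ∀ σ : Perm (Fin n),
      TT σ * SS (PJ J) qq = qq ^ len σ • SS (PJ J) qq →
      TT (simple n i * σ) * SS (PJ J) qq = qq ^ len (simple n i * σ) • SS (PJ J) qq := by
    intro i hi σ ih
    have hS := SS_left eps_q (simple_mem hi)
    rcases inv_left_cases σ i with h | h
    · rw [TT_left σ i h, mul_assoc, ih, mul_smul_comm, hS, smul_smul, len_eq, len_eq, h, pow_succ]
    · have h1 := TT_left (simple n i * σ) i (by rw [← mul_assoc, simple_mul_self, one_mul]; exact h)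
      rw [← mul_assoc, simple_mul_self, one_mul] at h1
      have h2 : tt n i * (TT (simple n i * σ) * SS (PJ J) qq) =
          tt n i * (qq ^ len (simple n i * σ) • SS (PJ J) qq) := by
        rw [← mul_assoc, ← h1, ih, mul_smul_comm, hS, smul_smul, len_eq, len_eq, h, pow_succ]
      exact (tu n i).isUnit.mul_left_cancel h2
  unfold PJ at hσ
  induction hσ using Subgroup.closure_induction_left with
  | one => 
    have : len (1 : Perm (Fin n)) = 0 := by rw [len_eq, inv_one]
    rw [TT_one, one_mul, this, pow_zero, one_smul]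
  | mul_left x hx y hy ih =>
    obtain ⟨i, hi, rfl⟩ := hx
    exact key i hi y ih
  | inv_mul_cancel x hx y hy ih =>
    obtain ⟨i, hi, rfl⟩ := hx
    rw [simple_inv]
    exact key i hi y ih

open Classical in
lemma SS_sq : SS (PJ J) qq * SS (PJ J) qq =
    (∑ σ : Perm (Fin n) with σ ∈ PJ J, qq ^ (2 * len σ)) • SS (PJ J) qq := by
  conv_lhs => 
    lhs
    unfold SS
  rw [sum_mul, sum_smul]
  apply sum_congr rfl
  intro σ hσ
  rw [mem_filter] at hσ
  rw [smul_mul_assoc, TT_mul_SS hσ.2, smul_smul, ← pow_add, two_mul]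

end Idem

section Final

variable {N : ℕ}

lemma mm_zero (μ : Fin (N + 1) → ℕ) : mm μ 0 = 0 := by
  unfold mm
  apply sum_eq_zero
  intro j hj
  rw [mem_filter] at hj
  exact absurd hj.2 (Nat.not_lt_zero _)

lemma mm_succ (μ : Fin (N + 1) → ℕ) {k : ℕ} (hk : k < N + 1) :
    mm μ (k + 1) = mm μ k + μ ⟨k, hk⟩ := by
  unfold mm
  rw [← sum_filter_add_sum_filter_not (s := univ.filter (fun j : Fin (N + 1) => j.val < k + 1))
    (p := fun j => j.val < k), filter_filter, filter_filter]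
  congr 1
  · apply sum_congr _ (fun _ _ => rfl)
    ext j
    simp only [mem_filter, mem_univ, true_and]
    omega
  · have : univ.filter (fun j : Fin (N + 1) => j.val < k + 1 ∧ ¬ j.val < k) = {⟨k, hk⟩} := by
      ext j
      simp only [mem_filter, mem_univ, true_and, mem_singleton, Fin.ext_iff]
      omega
    rw [this, sum_singleton]

lemma mm_last (μ : Fin (N + 1) → ℕ) : mm μ (N + 1) = nn μ := by
  unfold mm nn
  apply sum_congr _ (fun _ _ => rfl)
  ext j
  simp only [mem_filter, mem_univ, true_and, iff_true]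
  exact j.2

/-- image of a generator -/
lemma incl_T {N n : ℕ} (h : N + 1 ≤ n) (i : Fin (N + 1 - 1)) :
    incl h (T (N + 1) i) = T n ⟨i, by have := i.2; omega⟩ := by
  unfold incl
  change hlift _ _ (quo (N + 1) (FreeAlgebra.ι KK i)) = _
  rw [hlift_quo, inclFree, FreeAlgebra.lift_ι_apply]
  rfl

lemma Anti_incl {N n : ℕ} (h : N + 1 ≤ n) : Anti h = incl h (Anti0 N) := by
  unfold Anti Anti0
  rw [map_sum]
  apply sum_congr rfl
  intro σ _
  rw [map_smul]
  congr 1
  unfold TTin TT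
  rw [map_list_prod, List.map_map]
  congr 1
  apply List.map_congr_left
  intro i _
  rw [Function.comp_apply, incl_T]
  rfl

lemma incl_tt {N n : ℕ} (h : N + 1 ≤ n) {i : ℕ} (hi : i < N) :
    incl h (tt (N + 1) i) = tt n i := by
  rw [tt_eq (by omega), tt_eq (by omega), incl_T]

end Final

end Pool.Agent.X254.HC
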