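import Pool.Agent.X254.HC.Comb

set_option autoImplicit false

/-! Reduced words of permutations of `Fin n`. -/

namespace Pool.Agent.X254.HC

open Finset Equiv

variable {n : ℕ}

/-- lower point of the simple transposition -/
def lo (i : Fin (n - 1)) : Fin n := ⟨i, by have := i.2; omega⟩
/-- upper point of the simple transposition -/
def hi (i : Fin (n - 1)) : Fin n := ⟨i + 1, by have := i.2; omega⟩

/-- the transposition `s_{i+1}` exchanging `i` and `i + 1` (points of `Fin n`) -/
def simple (n : ℕ) (i : Fin (n - 1)) : Perm (Fin n) := swap (lo i) (hi i)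

/-- the permutation spelled by a word -/
def wordPerm (n : ℕ) (w : List (Fin (n - 1))) : Perm (Fin n) := (w.map (simple n)).prod

/-- a word is reduced if no shorter word spells the same permutation -/
def IsReduced (n : ℕ) (w : List (Fin (n - 1))) : Prop :=
  ∀ w' : List (Fin (n - 1)), wordPerm n w' = wordPerm n w → w.length ≤ w'.length

lemma simple_fix (i : Fin (n - 1)) (x : Fin n) (h1 : (x : ℕ) ≠ i) (h2 : (x : ℕ) ≠ i + 1) :
    simple n i x = x := by
  unfold simple
  apply swap_apply_of_ne_of_ne
  · intro hh; apply h1; rw [hh]; rfl
  · intro hh; apply h2; rw [hh]; rfl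

lemma lo_ne_hi (i : Fin (n - 1)) : lo i ≠ hi i := by
  intro h
  have := congrArg Fin.val h
  simp [lo, hi] at this

lemma simple_mul_self (i : Fin (n - 1)) : simple n i * simple n i = 1 := by
  unfold simple; exact swap_mul_self _ _

lemma simple_inv (i : Fin (n - 1)) : (simple n i)⁻¹ = simple n i := by
  unfold simple; exact swap_inv _ _

/-- inversions -/
def invs (σ : Perm (Fin n)) : Finset (Fin n × Fin n) :=
  univ.filter (fun p => p.1 < p.2 ∧ σ p.2 < σ p.1)

/-- number of inversions -/
def inv (σ : Perm (Fin n)) : ℕ := (invs σ).card

lemma mem_invs (σ : Perm (Fin n)) (p : Fin n × Fin n) : p ∈ invs σ ↔ p.1 < p.2 ∧ σ p.2 < σ p.1 := by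
  simp [invs]

lemma simple_lt (i : Fin (n - 1)) {x y : Fin n} (h : x < y) (h' : ¬ (x = lo i ∧ y = hi i)) :
    simple n i x < simple n i y := by
  unfold simple
  rw [swap_apply_def, swap_apply_def]
  rw [Fin.lt_def] at h
  simp only [Fin.ext_iff, lo, hi] at h'
  simp only [lo, hi, Fin.ext_iff]
  split_ifs <;> simp only [Fin.lt_def] <;> omega

lemma simple_simple (i : Fin (n - 1)) (x : Fin n) : simple n i (simple n i x) = x := by
  unfold simple; exact swap_apply_self _ _ _

lemma inv_mul_simple (σ : Perm (Fin n)) (i : Fin (n - 1)) (h : σ (lo i) < σ (hi i)) :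
    inv (σ * simple n i) = inv σ + 1 := by
  have e1 : invs (σ * simple n i) =
      insert (lo i, hi i) ((invs σ).image (fun p => (simple n i p.1, simple n i p.2))) := by
    ext ⟨x, y⟩
    rw [mem_invs, mem_insert, mem_image]
    simp only [Perm.mul_apply]
    constructor
    · rintro ⟨h1, h2⟩
      by_cases h3 : x = lo i ∧ y = hi i
      · left; rw [h3.1, h3.2]
      · right
        refine ⟨(simple n i x, simple n i y), ?_, ?_⟩
        · rw [mem_invs]; exact ⟨simple_lt i h1 h3, h2⟩
        · simp only [simple_simple]
    · rintro (h1 | ⟨⟨a, b⟩, h1, h2⟩)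
      · simp only [Prod.mk.injEq] at h1
        obtain ⟨rfl, rfl⟩ := h1
        refine ⟨?_, ?_⟩
        · rw [Fin.lt_def]; simp [lo, hi]
        · unfold simple; rw [swap_apply_left, swap_apply_right]; exact h
      · rw [mem_invs] at h1
        simp only [Prod.mk.injEq] at h1 h2
        obtain ⟨rfl, rfl⟩ := h2
        refine ⟨simple_lt i h1.1 ?_, ?_⟩
        · rintro ⟨rfl, rfl⟩
          exact lt_asymm h h1.2
        · rw [simple_simple, simple_simple]; exact h1.2
  unfold inv
  rw [e1, card_insert_of_notMem, card_image_of_injective]
  · rintro ⟨a, b⟩ ⟨c, d⟩ h1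
    simp only [Prod.mk.injEq] at h1
    rw [Prod.mk.injEq]
    exact ⟨(simple n i).injective h1.1, (simple n i).injective h1.2⟩
  · rw [mem_image]
    rintro ⟨⟨a, b⟩, h1, h2⟩
    rw [mem_invs] at h1
    simp only [Prod.mk.injEq] at h1 h2
    have ha : a = hi i := by
      have := congrArg (simple n i) h2.1
      rw [simple_simple] at this
      rw [this]; unfold simple; exact swap_apply_left _ _
    have hb : b = lo i := by
      have := congrArg (simple n i) h2.2
      rw [simple_simple] at this
      rw [this]; unfold simple; exact swap_apply_right _ _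
    subst ha; subst hb
    have := h1.1
    rw [Fin.lt_def] at this
    simp [lo, hi] at this

lemma inv_desc (σ : Perm (Fin n)) (i : Fin (n - 1)) (h : σ (hi i) < σ (lo i)) :
    inv σ = inv (σ * simple n i) + 1 := by
  have h1 := inv_mul_simple (σ * simple n i) i (by
    simp only [Perm.mul_apply]
    unfold simple; rw [swap_apply_left, swap_apply_right]; exact h)
  rw [mul_assoc, simple_mul_self, mul_one] at h1
  exact h1

lemma inv_cases (σ : Perm (Fin n)) (i : Fin (n - 1)) :
    inv (σ * simple n i) = inv σ + 1 ∨ inv σ = inv (σ * simple n i) + 1 := by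
  rcases lt_trichotomy (σ (lo i)) (σ (hi i)) with h | h | h
  · left; exact inv_mul_simple σ i h
  · exact absurd (σ.injective h) (lo_ne_hi i)
  · right; exact inv_desc σ i h

lemma desc_of_inv (σ : Perm (Fin n)) (i : Fin (n - 1)) (h : inv σ = inv (σ * simple n i) + 1) :
    σ (hi i) < σ (lo i) := by
  rcases lt_trichotomy (σ (lo i)) (σ (hi i)) with h1 | h1 | h1
  · have := inv_mul_simple σ i h1; omega
  · exact absurd (σ.injective h1) (lo_ne_hi i)
  · exact h1

lemma inv_one : inv (1 : Perm (Fin n)) = 0 := by
  unfold inv
  rw [card_eq_zero, eq_empty_iff_forall_notMem]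
  intro p hp
  rw [mem_invs] at hp
  exact lt_asymm hp.1 hp.2

lemma inv_inv (σ : Perm (Fin n)) : inv σ⁻¹ = inv σ := by
  symm
  unfold inv
  apply card_bij (fun p _ => (σ p.2, σ p.1))
  · intro p hp
    rw [mem_invs] at hp ⊢
    refine ⟨hp.2, ?_⟩
    simpa using hp.1
  · rintro ⟨a, b⟩ _ ⟨c, d⟩ _ h
    simp only [Prod.mk.injEq] at h
    rw [Prod.mk.injEq]
    exact ⟨σ.injective h.2, σ.injective h.1⟩
  · rintro ⟨a, b⟩ h
    rw [mem_invs] at h
    refine ⟨(σ⁻¹ b, σ⁻¹ a), ?_, ?_⟩
    · rw [mem_invs]
      refine ⟨h.2, ?_⟩
      simpa using h.1
    · simp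

lemma exists_desc (σ : Perm (Fin n)) (h : σ ≠ 1) : ∃ i : Fin (n - 1), σ (hi i) < σ (lo i) := by
  by_contra hcon
  push Not at hcon
  apply h
  cases n with
  | zero => exact Subsingleton.elim _ _
  | succ n =>
    have hmono : StrictMono σ := by
      rw [Fin.strictMono_iff_lt_succ]
      intro i
      have h1 := hcon i
      have h2 : σ (lo i) ≠ σ (hi i) := fun hh => lo_ne_hi (n := n + 1) i (σ.injective hh)
      exact lt_of_le_of_ne h1 h2
    have h3 : hmono.orderIsoOfSurjective σ σ.surjective = OrderIso.refl _ := Subsingleton.elim _ _
    ext x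
    have := congrArg (fun f : Fin (n + 1) ≃o Fin (n + 1) => f x) h3
    simp only [StrictMono.coe_orderIsoOfSurjective, OrderIso.refl_apply] at this
    rw [this]; rfl

lemma wordPerm_append (u v : List (Fin (n - 1))) :
    wordPerm n (u ++ v) = wordPerm n u * wordPerm n v := by
  unfold wordPerm; rw [List.map_append, List.prod_append]

lemma wordPerm_one (i : Fin (n - 1)) : wordPerm n [i] = simple n i := by
  simp [wordPerm]

lemma inv_word_le (w : List (Fin (n - 1))) : inv (wordPerm n w) ≤ w.length := by
  induction w using List.reverseRecOn with
  | nil => unfold wordPerm; simp [inv_one]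
  | append_singleton w i ih =>
    rw [wordPerm_append, wordPerm_one, List.length_append, List.length_singleton]
    rcases inv_cases (wordPerm n w) i with h | h <;> omega

lemma exists_word (k : ℕ) : ∀ σ : Perm (Fin n), inv σ = k →
    ∃ w : List (Fin (n - 1)), wordPerm n w = σ ∧ w.length = k := by
  induction k with
  | zero =>
    intro σ h
    by_cases h1 : σ = 1
    · exact ⟨[], by rw [h1]; simp [wordPerm], rfl⟩
    · obtain ⟨i, hi⟩ := exists_desc σ h1
      have := inv_desc σ i hi
      omega
  | succ k ih =>
    intro σ h
    have h1 : σ ≠ 1 := by rintro rfl; rw [inv_one] at h; omega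
    obtain ⟨i, hi⟩ := exists_desc σ h1
    have h2 := inv_desc σ i hi
    obtain ⟨w, hw, hl⟩ := ih (σ * simple n i) (by omega)
    refine ⟨w ++ [i], ?_, ?_⟩
    · rw [wordPerm_append, wordPerm_one, hw, mul_assoc, simple_mul_self, mul_one]
    · rw [List.length_append, hl]; rfl

lemma isReduced_iff (w : List (Fin (n - 1))) : IsReduced n w ↔ w.length = inv (wordPerm n w) := by
  constructor
  · intro h
    obtain ⟨w', h1, h2⟩ := exists_word _ (wordPerm n w) rfl
    have := h w' h1
    have := inv_word_le w
    omega
  · intro h w' hw'
    rw [h, ← hw']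
    exact inv_word_le w'

lemma exists_reduced (σ : Perm (Fin n)) : ∃ w : List (Fin (n - 1)), wordPerm n w = σ ∧
    IsReduced n w := by
  obtain ⟨w, h1, h2⟩ := exists_word _ σ rfl
  exact ⟨w, h1, by rw [isReduced_iff, h1, h2]⟩

lemma simple_comm {i j : Fin (n - 1)} (h : (i : ℕ) + 1 < j) :
    simple n i * simple n j = simple n j * simple n i := by
  apply Perm.Disjoint.commute
  intro x
  by_cases h1 : (x : ℕ) = i
  · right; exact simple_fix j x (by omega) (by omega)
  · by_cases h2 : (x : ℕ) = i + 1
    · right; exact simple_fix j x (by omega) (by omega)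
    · left; exact simple_fix i x h1 h2

lemma simple_braid {i j : Fin (n - 1)} (h : (i : ℕ) + 1 = j) :
    simple n i * simple n j * simple n i = simple n j * simple n i * simple n j := by
  have h1 : lo j = hi i := by simp [lo, hi, ← h]
  unfold simple
  rw [h1]
  have a1 : lo i ≠ hi i := lo_ne_hi i
  have a2 : lo i ≠ hi j := by intro hh; have := congrArg Fin.val hh; simp [lo, hi] at this; omega
  have a3 : hi i ≠ hi j := by intro hh; have := congrArg Fin.val hh; simp [hi] at this; omega
  rw [swap_mul_swap_mul_swap a1 a2, swap_comm (lo i) (hi i), swap_comm (hi i) (hi j),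
    swap_mul_swap_mul_swap a3.symm a2.symm, swap_comm]

variable {M : Type*} [Monoid M]

/-- product of the generators along a word -/
def pt (t : ℕ → M) (w : List (Fin (n - 1))) : M := (w.map (fun i : Fin (n - 1) => t (i : ℕ))).prod

lemma pt_append (t : ℕ → M) (u v : List (Fin (n - 1))) : pt t (u ++ v) = pt t u * pt t v := by
  unfold pt; rw [List.map_append, List.prod_append]

lemma pt_one (t : ℕ → M) (i : Fin (n - 1)) : pt t [i] = t i := by simp [pt]

theorem matsumoto {t : ℕ → M} (ht : Braid n t) (k : ℕ) : ∀ w w' : List (Fin (n - 1)),
    wordPerm n w = wordPerm n w' → w.length = k → w'.length = k → inv (wordPerm n w) = k →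
    pt t w = pt t w' := by
  induction k using Nat.strong_induction_on with
  | _ k ih =>
    -- the case of last letters `i < j`
    have key : ∀ (u u' : List (Fin (n - 1))) (i j : Fin (n - 1)), (i : ℕ) < j →
        wordPerm n (u ++ [i]) = wordPerm n (u' ++ [j]) → u.length + 1 = k → u'.length + 1 = k →
        inv (wordPerm n (u ++ [i])) = k → pt t (u ++ [i]) = pt t (u' ++ [j]) := by
      intro u u' i j hij hw hl hl' hinv
      set σ := wordPerm n (u ++ [i]) with hσ
      have hu : wordPerm n u = σ * simple n i := by
        rw [hσ, wordPerm_append, wordPerm_one, mul_assoc, simple_mul_self, mul_one]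
      have hu' : wordPerm n u' = σ * simple n j := by
        rw [hw, wordPerm_append, wordPerm_one, mul_assoc, simple_mul_self, mul_one]
      have hi1 : inv σ = inv (σ * simple n i) + 1 := by
        rcases inv_cases σ i with h | h
        · have := inv_word_le u
          rw [hu] at this
          omega
        · exact h
      have hj1 : inv σ = inv (σ * simple n j) + 1 := by
        rcases inv_cases σ j with h | h
        · have := inv_word_le u'
          rw [hu'] at this
          omega
        · exact h
      have di := desc_of_inv σ i hi1
      have dj := desc_of_inv σ j hj1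
      rcases Nat.lt_or_ge ((i : ℕ) + 1) j with hc | hc
      · -- commuting letters
        have hd : inv (σ * simple n i) = inv (σ * simple n i * simple n j) + 1 := by
          apply inv_desc
          rw [Perm.mul_apply, Perm.mul_apply]
          have e1 : simple n i (hi j) = hi j :=
            simple_fix i _ (by simp only [hi]; omega) (by simp only [hi]; omega)
          have e2 : simple n i (lo j) = lo j :=
            simple_fix i _ (by simp only [lo]; omega) (by simp only [lo]; omega)
          rw [e1, e2]; exact dj
        obtain ⟨v, hv, hvl⟩ := exists_word _ (σ * simple n i * simple n j) rfl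
        have h1 : wordPerm n (v ++ [j]) = wordPerm n u := by
          rw [wordPerm_append, wordPerm_one, hv, hu, mul_assoc, simple_mul_self, mul_one]
        have h2 : wordPerm n (v ++ [i]) = wordPerm n u' := by
          rw [wordPerm_append, wordPerm_one, hv, hu', mul_assoc, mul_assoc, ← simple_comm hc,
            ← mul_assoc (simple n i), simple_mul_self, one_mul]
        have h3 := ih (k - 1) (by omega) u (v ++ [j]) h1.symm (by omega)
          (by rw [List.length_append, hvl, List.length_singleton]; omega) (by rw [hu]; omega)
        have h4 := ih (k - 1) (by omega) u' (v ++ [i]) h2.symm (by omega)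
          (by rw [List.length_append, hvl, List.length_singleton]; omega) (by rw [hu']; omega)
        rw [pt_append, pt_append, h3, h4, pt_append, pt_append, pt_one, pt_one, mul_assoc, mul_assoc,
          ht.cm i j hc (by have := j.2; omega)]
      · have hc' : (i : ℕ) + 1 = j := by omega
        have hlj : lo j = hi i := by simp [lo, hi, ← hc']
        rw [hlj] at dj
        have e1 : simple n i (hi j) = hi j :=
          simple_fix i _ (by simp only [hi]; omega) (by simp only [hi]; omega)
        have e2 : simple n i (lo j) = lo i := by
          rw [hlj]; unfold simple; exact swap_apply_right _ _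
        have e3 : simple n i (hi i) = lo i := by unfold simple; exact swap_apply_right _ _
        have e4 : simple n i (lo i) = hi i := by unfold simple; exact swap_apply_left _ _
        have e5 : simple n j (hi i) = hi j := by
          rw [← hlj]; unfold simple; exact swap_apply_left _ _
        have e6 : simple n j (lo i) = lo i :=
          simple_fix j _ (by simp only [lo]; omega) (by simp only [lo]; omega)
        have hd : inv (σ * simple n i) = inv (σ * simple n i * simple n j) + 1 := by
          apply inv_desc
          rw [Perm.mul_apply, Perm.mul_apply, e1, e2]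
          exact lt_trans dj di
        have hd2 : inv (σ * simple n i * simple n j) =
            inv (σ * simple n i * simple n j * simple n i) + 1 := by
          apply inv_desc
          rw [Perm.mul_apply, Perm.mul_apply, Perm.mul_apply, Perm.mul_apply, e5, e6, e1, e4]
          exact dj
        obtain ⟨v, hv, hvl⟩ := exists_word _ (σ * simple n i * simple n j * simple n i) rfl
        have h1 : wordPerm n (v ++ [i] ++ [j]) = wordPerm n u := by
          rw [wordPerm_append, wordPerm_append, wordPerm_one, wordPerm_one, hv, hu,
            mul_assoc _ (simple n i) (simple n i), simple_mul_self, mul_one, mul_assoc,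
            simple_mul_self, mul_one]
        have h2 : wordPerm n (v ++ [j] ++ [i]) = wordPerm n u' := by
          rw [wordPerm_append, wordPerm_append, wordPerm_one, wordPerm_one, hv, hu',
            mul_assoc σ, mul_assoc σ, simple_braid hc', mul_assoc σ,
            mul_assoc _ (simple n j) (simple n j), simple_mul_self, mul_one, mul_assoc σ,
            mul_assoc (simple n j), simple_mul_self, mul_one]
        have h3 := ih (k - 1) (by omega) u (v ++ [i] ++ [j]) h1.symm (by omega)
          (by rw [List.length_append, List.length_append, hvl, List.length_singleton,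
            List.length_singleton]; omega) (by rw [hu]; omega)
        have h4 := ih (k - 1) (by omega) u' (v ++ [j] ++ [i]) h2.symm (by omega)
          (by rw [List.length_append, List.length_append, hvl, List.length_singleton,
            List.length_singleton]; omega) (by rw [hu']; omega)
        rw [pt_append, pt_append, h3, h4]
        simp only [pt_append, pt_one, mul_assoc]
        have h5 := ht.br i (by have := j.2; omega)
        rw [hc'] at h5
        rw [← mul_assoc (t i), h5, mul_assoc]
    intro w w' hw hl hl' hinv
    rcases List.eq_nil_or_concat' w with h | ⟨u, i, h⟩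
    · subst h
      simp only [List.length_nil] at hl
      rw [← hl] at hl'
      rw [List.eq_nil_of_length_eq_zero hl']
    · rcases List.eq_nil_or_concat' w' with h' | ⟨u', j, h'⟩
      · subst h'
        simp only [List.length_nil] at hl'
        rw [← hl'] at hl
        rw [List.eq_nil_of_length_eq_zero hl]
      · subst h; subst h'
        rw [List.length_append, List.length_singleton] at hl hl'
        rcases lt_trichotomy (i : ℕ) j with hij | hij | hij
        · exact key u u' i j hij hw hl hl' hinv
        · have hij' : i = j := Fin.ext hij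
          subst hij'
          rw [wordPerm_append, wordPerm_append] at hw
          have huu := mul_right_cancel hw
          rw [pt_append, pt_append, ih (k - 1) (by omega) u u' huu (by omega) (by omega) ?_]
          have h1 := inv_word_le u
          rw [wordPerm_append, wordPerm_one] at hinv
          rcases inv_cases (wordPerm n u) i with h2 | h2 <;> omega
        · exact (key u' u j i hij hw.symm hl' hl (by rw [← hw]; exact hinv)).symm

end Pool.Agent.X254.HC
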